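import Pool.Agent.W945.Pm.Reach

/-!
# Assembly
-/

namespace Pool.Agent.W945.Pm

open Finset Pool.Agent.H454R3

variable {n M : ℕ}

/-- `s'` is a likely next state of `s` on some ground set which contains `N` -/
def edge (δ : Fin M → Finset (Fin n) → Fin M) (p b : ℝ) (N : Finset (Fin n)) (s s' : Fin M) :
    Prop :=
  ∃ N' : Finset (Fin n), N ⊆ N' ∧ b ≤ Pr p N' (fun S => S.Nonempty ∧ δ s S = s')

lemma edge_mono (δ : Fin M → Finset (Fin n) → Fin M) (p b : ℝ) {N N' : Finset (Fin n)}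
    (h : N' ⊆ N) {s s' : Fin M} (he : edge δ p b N s s') : edge δ p b N' s s' := by
  obtain ⟨N'', h1, h2⟩ := he
  exact ⟨N'', h.trans h1, h2⟩

open Classical in
/-- the reachable pairs -/
noncomputable def RR (δ : Fin M → Finset (Fin n) → Fin M) (p b : ℝ) (N : Finset (Fin n)) :
    Finset (Fin M × Fin M) :=
  univ.filter fun x => Relation.ReflTransGen (edge δ p b N) x.1 x.2

lemma mem_RR (δ : Fin M → Finset (Fin n) → Fin M) (p b : ℝ) (N : Finset (Fin n)) (s s' : Fin M) :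
    (s, s') ∈ RR δ p b N ↔ Relation.ReflTransGen (edge δ p b N) s s' := by
  classical
  unfold RR
  rw [mem_filter]
  simp

lemma RR_mono (δ : Fin M → Finset (Fin n) → Fin M) (p b : ℝ) (N N' : Finset (Fin n))
    (h : N' ⊆ N) : RR δ p b N ⊆ RR δ p b N' := by
  rintro ⟨s, s'⟩ hx
  rw [mem_RR] at hx ⊢
  exact hx.lift id fun a c hab => edge_mono δ p _ h hab

/-- the likely next states of the terminal state -/
lemma good_high {δ : Fin M → Finset (Fin n) → Fin M}
    (hM : 1 ≤ M) (N : Finset (Fin n)) (hN : 16 * M ^ 2 ≤ N.card) (q : Fin M) (A : Fin M → Prop)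
    (hA : ∀ s', edge δ (1 / ((8 * M ^ 2 : ℕ) : ℝ)) (1 / (4 * M)) N q s' → A s') :
    1 / 2 ≤ Pr (1 / ((8 * M ^ 2 : ℕ) : ℝ)) N (fun S => S.Nonempty ∧ A (δ q S)) := by
  classical
  set p : ℝ := 1 / ((8 * M ^ 2 : ℕ) : ℝ) with hp
  have hM' : (1 : ℝ) ≤ M := by exact_mod_cast hM
  have h8 : 1 ≤ 8 * M ^ 2 := Nat.mul_pos (by norm_num) (by positivity)
  have h8' : (1 : ℝ) ≤ ((8 * M ^ 2 : ℕ) : ℝ) := by exact_mod_cast h8
  have h0 : 0 ≤ p := by positivity
  have h1 : p ≤ 1 := by rw [hp, div_le_one (by linarith)]; exact h8'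
  have e1 := Pr_nonempty p N
  have e2 : (1 - p) ^ N.card ≤ 1 / 4 := by
    calc (1 - p) ^ N.card ≤ (1 - p) ^ (16 * M ^ 2) :=
          pow_le_pow_of_le_one (by linarith) (by linarith) hN
      _ = ((1 - p) ^ (8 * M ^ 2)) ^ 2 := by
          rw [← pow_mul]; congr 1; ring
      _ ≤ (1 / 2) ^ 2 := by
          apply pow_le_pow_left₀ _ (one_sub_pow_le_half h8)
          have : 0 ≤ 1 - p := by linarith
          positivity
      _ = 1 / 4 := by norm_num
  have e3 : Pr p N (fun S => S.Nonempty) ≤ Pr p N (fun S => S.Nonempty ∧ A (δ q S)) +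
      ∑ s' ∈ univ.filter (fun s' => ¬ A s'), Pr p N (fun S => S.Nonempty ∧ δ q S = s') := by
    unfold Pr
    rw [← Ex_sum, ← Ex_add]
    refine Ex_mono h0 h1 fun S _ => ind_aux _ _ _ (fun s' => S.Nonempty ∧ δ q S = s')
      fun h3 h4 => ⟨δ q S, ?_, h3, rfl⟩
    rw [mem_filter]
    exact ⟨mem_univ _, h4⟩
  have e4 : ∑ s' ∈ univ.filter (fun s' => ¬ A s'), Pr p N (fun S => S.Nonempty ∧ δ q S = s') ≤
      1 / 4 := by
    calc _ ≤ ∑ s' ∈ univ.filter (fun s' => ¬ A s'), 1 / (4 * (M : ℝ)) := by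
          refine sum_le_sum fun s' hs' => ?_
          rw [mem_filter] at hs'
          by_contra hcon
          push Not at hcon
          exact hs'.2 (hA s' ⟨N, subset_rfl, hcon.le⟩)
      _ = ((univ.filter (fun s' => ¬ A s')).card : ℝ) * (1 / (4 * (M : ℝ))) := by
          rw [sum_const, nsmul_eq_mul]
      _ ≤ M * (1 / (4 * (M : ℝ))) := by
          apply mul_le_mul_of_nonneg_right _ (by positivity)
          have : (univ.filter (fun s' : Fin M => ¬ A s')).card ≤ M :=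
            (card_filter_le _ _).trans (by simp)
          exact_mod_cast this
      _ = 1 / 4 := by field_simp
  linarith

theorem exists_steer {n M : ℕ} (hM : 1 ≤ M) (hn : 32 * M ^ 2 ≤ n) (Δ : ℕ)
    (hΔ : 2 * (M ^ 2 + 1) * Δ ≤ n) (hΔM : M ≤ Δ) (r : Fin M → Finset (Fin n) → Fin n)
    (δ : Fin M → Finset (Fin n) → Fin M) (hr : ∀ s S, S.Nonempty → r s S ∈ S) (s₀ : Fin M)
    (k : ℕ) (hk1 : 1 ≤ k) (hk : 8 * M * n ≤ 2 ^ k) :
    ∃ (t : List (Fin n)) (q : Fin M) (A : Fin M → Prop) (rk : Fin M → ℕ) (w : Fin M → Fin n)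
      (St : Fin M → Finset (Fin n) → Finset (Fin n)) (K : ℕ),
      Steer r δ t q A rk w St ∧ A s₀ ∧ (∀ s, A s → rk s < K) ∧
      ((Δ - M : ℕ) : ℝ) * (1 / ((8 * M ^ 2 : ℕ) : ℝ) / ((16 * M * k : ℕ) : ℝ)) / 2 - 1 / 8 ≤
        t.length := by
  classical
  set p : ℝ := 1 / ((8 * M ^ 2 : ℕ) : ℝ) with hp
  set b : ℝ := 1 / (4 * M) with hb
  have hM' : (1 : ℝ) ≤ M := by exact_mod_cast hM
  have hn0 : 0 < n := lt_of_lt_of_le (by positivity) hn
  have hn' : (0 : ℝ) < n := by exact_mod_cast hn0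
  have h8 : 2 ≤ 8 * M ^ 2 := by nlinarith
  have h8' : (2 : ℝ) ≤ ((8 * M ^ 2 : ℕ) : ℝ) := by exact_mod_cast h8
  have h0 : 0 < p := by positivity
  have h1 : p ≤ 1 / 2 := by
    rw [hp]
    exact one_div_le_one_div_of_le (by norm_num) h8'
  have hpM : p * M = b / 2 := by
    rw [hp, hb]; push_cast; field_simp; norm_num
  have hb0 : 0 < b := by positivity
  -- the stable ground set
  obtain ⟨N, hN, hst⟩ := exists_stable (RR δ p b) (RR_mono δ p b) Δ
  rw [Fintype.card_prod, Fintype.card_fin] at hN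
  -- the terminal state
  obtain ⟨q, hq1, hq2⟩ := exists_terminal (edge δ p b N) s₀
  obtain ⟨rk, nxt, hrk, hnxt⟩ := exists_rank (edge δ p b N) q
  set A : Fin M → Prop := fun s => Relation.ReflTransGen (edge δ p b N) s q with hA
  -- the ground sets of the auxiliary families
  have hGr : ∀ s, ∃ N' : Finset (Fin n), N ⊆ N' ∧ (A s → s ≠ q →
      b ≤ Pr p N' (fun S => S.Nonempty ∧ δ s S = nxt s)) := by
    intro s
    by_cases hs : A s ∧ s ≠ q
    · obtain ⟨⟨N', h2, h3⟩, -, -⟩ := hnxt s hs.1 hs.2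
      exact ⟨N', h2, fun _ _ => h3⟩
    · exact ⟨N, subset_rfl, fun h2 h3 => absurd ⟨h2, h3⟩ hs⟩
  choose Gr hGr1 hGr2 using hGr
  obtain ⟨w, hw⟩ := exists_w h0.le (by linarith) r A q rk hrk hn0
    (fun s S => S.Nonempty ∧ δ s S = nxt s) (fun s S h => hr s S h.1) Gr (b := b)
    (by rw [hpM]; linarith) hGr2
  have hbM : b - p * M = b / 2 := by rw [hpM]; ring
  rw [hbM] at hw
  -- the ground set of the terminal state
  set W : Finset (Fin n) := (univ.filter fun s => A s ∧ s ≠ q).image w with hW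
  have hWc : W.card ≤ M := by
    calc W.card ≤ _ := card_image_le
      _ ≤ (univ : Finset (Fin M)).card := card_filter_le _ _
      _ = M := by simp
  set F : {s : Fin M // A s ∧ s ≠ q} → Finset (Fin n) → Prop := fun s S =>
    ((S.Nonempty ∧ δ s S = nxt s) ∧ Disjoint S (Wh A q rk w s)) ∧ r s S = w s with hF
  have hk' : (1 / 2 : ℝ) ^ k ≤ b / 2 / n := by
    have h2 : (8 * M * n : ℝ) ≤ 2 ^ k := by exact_mod_cast hk
    rw [one_div_pow, hb]
    have h3 : 1 / (4 * (M : ℝ)) / 2 / n = 1 / (8 * M * n) := by field_simp; norm_num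
    rw [h3]
    exact one_div_le_one_div_of_le (by positivity) h2
  have hk'' : (1 / 2 : ℝ) ^ k ≤ 1 / 2 / n := by
    refine hk'.trans ?_
    apply div_le_div_of_nonneg_right _ hn'.le
    have : b ≤ 1 := by
      rw [hb, div_le_one (by positivity)]; linarith
    linarith
  obtain ⟨t, ht1, ht2, ht3, ht4, ht5⟩ := exists_select
    (ι := {s : Fin M // A s ∧ s ≠ q}) (r := r q) (good := fun S => S.Nonempty ∧ A (δ q S))
    h0 h1 (m := n) (k := k) (M := M) (J := Δ - M) hk1 hM
    ((Fintype.card_subtype_le _).trans (by simp)) hk'' (fun S h => hr q S h.1) (N \ W)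
    ((card_le_univ _).trans (by simp))
    (by
      intro N' hN' hcard
      have hN'N : N' ⊆ N := hN'.trans sdiff_subset
      have h2 : (N \ N').card ≤ Δ := by
        have h3 : N \ N' ⊆ ((N \ W) \ N') ∪ W := by
          intro x hx
          rw [mem_sdiff] at hx
          rw [mem_union, mem_sdiff, mem_sdiff]
          by_cases hxW : x ∈ W
          · exact Or.inr hxW
          · exact Or.inl ⟨⟨hx.1, hxW⟩, hx.2⟩
        have h4 := (card_le_card h3).trans (card_union_le _ _)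
        omega
      have hRR := hst N' hN'N h2
      apply good_high hM
      · have h3 : (univ : Finset (Fin n)) ⊆ N' ∪ (N \ N') ∪ (univ \ N) := by
          intro x _
          rw [mem_union, mem_union, mem_sdiff, mem_sdiff]
          by_cases hx1 : x ∈ N
          · by_cases hx2 : x ∈ N'
            · exact Or.inl (Or.inl hx2)
            · exact Or.inl (Or.inr ⟨hx1, hx2⟩)
          · exact Or.inr ⟨mem_univ _, hx1⟩
        have h4 := (card_le_card h3).trans (card_union_le _ _)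
        have h5 := card_union_le N' (N \ N')
        rw [card_univ, Fintype.card_fin] at h4
        have h6 : 2 * (Δ * (M * M)) + 2 * Δ = 2 * (M ^ 2 + 1) * Δ := by ring
        have h7 : M ^ 2 = M * M := by ring
        rw [h7] at hn ⊢
        omega
      · intro s' hs'
        have h3 : (q, s') ∈ RR δ p b N' := by
          rw [mem_RR]; exact Relation.ReflTransGen.single hs'
        rw [hRR, mem_RR] at h3
        exact hq2 s' h3)
    (fun i => Gr i) (fun i => sdiff_subset.trans (hGr1 i)) F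
    (fun i => hk'.trans (hw i i.2.1 i.2.2))
  -- the completions
  have hSt : ∀ s D, ∃ S : Finset (Fin n), A s → D ⊆ t.toFinset → D.Nonempty →
      S ∩ t.toFinset = D ∧
      (s = q → First t D (r q S) ∧ S.Nonempty ∧ A (δ q S) ∧ S ⊆ N \ W) ∧
      (s ≠ q → S.Nonempty ∧ δ s S = nxt s ∧ Disjoint S (Wh A q rk w s) ∧ r s S = w s) := by
    intro s D
    by_cases hs : A s ∧ D ⊆ t.toFinset ∧ D.Nonempty
    · obtain ⟨h2, h3, h4⟩ := hs
      by_cases hsq : s = q
      · obtain ⟨S, h5, h6, h7, h8⟩ := ht5 D h3 h4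
        exact ⟨S, fun _ _ _ => ⟨h6, fun _ => ⟨h7, h8.1, h8.2, h5⟩, fun h => absurd hsq h⟩⟩
      · obtain ⟨S, h5, h6, h7⟩ := ht4 ⟨s, h2, hsq⟩ D h3
        obtain ⟨⟨⟨h8, h9⟩, h10⟩, h11⟩ := h6
        exact ⟨S, fun _ _ _ => ⟨h7, fun h => absurd h hsq, fun _ => ⟨h8, h9, h10, h11⟩⟩⟩
    · exact ⟨∅, fun h2 h3 h4 => absurd ⟨h2, h3, h4⟩ hs⟩
  choose St hSt using hSt
  have hAq : A q := Relation.ReflTransGen.refl
  have htW : ∀ x ∈ t, x ∉ W := by
    intro x hx
    have := ht2 (List.mem_toFinset.2 hx)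
    rw [mem_sdiff] at this
    exact this.2
  have hmemW : ∀ s, A s → s ≠ q → w s ∈ W := by
    intro s h2 h3
    rw [hW, mem_image]
    exact ⟨s, by rw [mem_filter]; exact ⟨mem_univ _, h2, h3⟩, rfl⟩
  have hmemWh : ∀ s s', A s' → s' ≠ q → rk s < rk s' → w s' ∈ Wh A q rk w s := by
    intro s s' h2 h3 h4
    unfold Wh
    rw [mem_image]
    exact ⟨s', by rw [mem_filter]; exact ⟨mem_univ _, h2, h3, h4⟩, rfl⟩
  have hwne : ∀ s s', A s → s ≠ q → A s' → s' ≠ q → rk s < rk s' → w s ≠ w s' := by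
    intro s s' h2 h3 h4 h5 h6 h7
    obtain ⟨S, _, h8, _⟩ := ht4 ⟨s, h2, h3⟩ ∅ (empty_subset _)
    obtain ⟨⟨⟨h9, h10⟩, h11⟩, h12⟩ := h8
    have h13 := hr s S h9
    simp only at h12 h11
    rw [h12, h7] at h13
    exact (Finset.disjoint_left.1 h11) h13 (hmemWh s s' h4 h5 h6)
  refine ⟨t, q, A, rk, w, St, (univ.sup rk) + 1, ?_, hq1, ?_, ht3⟩
  · refine
      { nodup := ht1
        hq := hAq
        rk_inj := fun s s' _ _ h => hrk s s' h
        w_notMem := fun s h2 h3 h4 => htW _ h4 (hmemW s h2 h3)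
        w_inj := ?_
        inter := fun s D h2 h3 h4 => (hSt s D h2 h3 h4).1
        mem := ?_
        pick := fun s D h2 h3 h4 h5 => ((hSt s D h2 h4 h5).2.2 h3).2.2.2
        next := ?_
        next_rk := ?_
        excl := ?_
        first := fun D h2 h3 => ((hSt q D hAq h2 h3).2.1 rfl).1 }
    · intro s s' h2 h3 h4 h5 h6
      by_contra hne
      rcases lt_trichotomy (rk s) (rk s') with h7 | h7 | h7
      · exact hwne s s' h2 h3 h4 h5 h7 h6
      · exact hne (hrk s s' h7)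
      · exact hwne s' s h4 h5 h2 h3 h7 h6.symm
    · intro s D h2 h3 h4 h5
      obtain ⟨h6, _, _, h7⟩ := (hSt s D h2 h4 h5).2.2 h3
      have := hr s _ h6
      rwa [h7] at this
    · intro s D h2 h3 h4
      by_cases hsq : s = q
      · subst hsq
        exact ((hSt s D h2 h3 h4).2.1 rfl).2.2.1
      · rw [((hSt s D h2 h3 h4).2.2 hsq).2.1]
        exact (hnxt s h2 hsq).2.1
    · intro s D h2 h3 h4 h5
      rw [((hSt s D h2 h4 h5).2.2 h3).2.1]
      exact (hnxt s h2 h3).2.2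
    · intro s s' D h2 h3 h4 h5 h6 h7 h8 h9
      by_cases hsq : s = q
      · have h10 := ((hSt s D h2 h7 h8).2.1 hsq).2.2.2 h9
        rw [mem_sdiff] at h10
        exact h10.2 (hmemW s' h3 h4)
      · rcases h6 with h6 | h6
        · exact hsq h6
        · exact (Finset.disjoint_left.1 ((hSt s D h2 h7 h8).2.2 hsq).2.2.1) h9
            (hmemWh s s' h3 h4 h6)
  · intro s _
    have := le_sup (f := rk) (mem_univ s)
    omega

end Pool.Agent.W945.Pm
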