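import Pool.Agent.H454R3.Tri

/-!
# A rule with `n` memory states which is quadratic on combed cubes
-/

namespace Pool.Agent.W945.Pm

open Finset Pool.Agent.H454R3

variable {n : ℕ}

/-- prefer the direction which is the memory state -/
noncomputable def ckr (c : Fin n) (S : Finset (Fin n)) : Fin n :=
  if c ∈ S then c else if h : S.Nonempty then S.min' h else c

/-- the next memory state -/
def ckd (c : Fin n) (_ : Finset (Fin n)) : Fin n := ⟨(c.val + 1) % n, Nat.mod_lt _ c.pos⟩

lemma ckr_mem (c : Fin n) (S : Finset (Fin n)) (h : S.Nonempty) : ckr c S ∈ S := by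
  unfold ckr
  split_ifs with h1
  · exact h1
  · exact min'_mem S h

/-- the directions become final one after the other -/
theorem clock_bound (f : (Fin n → Bool) → ℕ) (hf : Combed f) (L : ℕ)
    (v : ℕ → (Fin n → Bool)) (s : ℕ → Fin n)
    (h : ∀ k < L, (improving f (v k)).Nonempty ∧
      v (k + 1) = flip (v k) (ckr (s k) (improving f (v k))) ∧
      s (k + 1) = ckd (s k) (improving f (v k))) : L ≤ n ^ 2 := by
  -- a direction which is not improving is not flipped
  have hstay : ∀ k < L, ∀ i, i ∉ improving f (v k) → v (k + 1) i = v k i := by
    intro k hk i hi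
    obtain ⟨h1, h2, _⟩ := h k hk
    rw [h2]
    apply flip_ne
    rintro rfl
    exact hi (ckr_mem _ _ h1)
  -- the memory state
  have hs : ∀ j k, k + j ≤ L → (s (k + j)).val = ((s k).val + j) % n := by
    intro j
    induction j with
    | zero => intro k _; rw [add_zero, add_zero, Nat.mod_eq_of_lt (s k).isLt]
    | succ j ih =>
      intro k hk
      have h1 := (h (k + j) (by omega)).2.2
      rw [← add_assoc, h1]
      show ((s (k + j)).val + 1) % n = _
      rw [ih k (by omega), Nat.mod_add_mod, ← add_assoc]
  have key : ∀ m, m ≤ n → m * n ≤ L → ∃ Z : Finset (Fin n), Z.card = m ∧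
      ∀ k, m * n ≤ k → k ≤ L → ∀ i ∈ Z, i ∉ improving f (v k) := by
    intro m
    induction m with
    | zero => intro _ _; exact ⟨∅, rfl, by simp⟩
    | succ m ih =>
      intro hm hmL
      have e1 : (m + 1) * n = m * n + n := by ring
      obtain ⟨Z, hZ, hZi⟩ := ih (by omega) (by omega)
      -- the vertices agree on `Z`
      have hag : ∀ j, m * n + j ≤ L → ∀ i ∈ Z, v (m * n + j) i = v (m * n) i := by
        intro j
        induction j with
        | zero => intro _ _ _; rfl
        | succ j ihj =>
          intro hj i hi
          rw [← add_assoc, hstay _ (by omega) i (hZi _ (by omega) (by omega) i hi)]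
          exact ihj (by omega) i hi
      obtain ⟨i, hi, b, hb⟩ := hf (univ \ Z) (v (m * n)) (by
        rw [← card_pos, card_sdiff_of_subset (subset_univ Z), card_univ, Fintype.card_fin]
        omega)
      have hiZ : i ∉ Z := (mem_sdiff.1 hi).2
      have hb' : ∀ j, m * n + j ≤ L → (i ∈ improving f (v (m * n + j)) ↔
          v (m * n + j) i = b) := by
        intro j hj
        apply hb
        intro c hc
        rw [mem_sdiff, not_and, not_not] at hc
        exact hag j hj c (hc (mem_univ c))
      -- there is a time in the window at which the memory state is `i`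
      have hex : ∃ j < n, (s (m * n + j)) = i := by
        have hn : 0 < n := by omega
        have h1 := (s (m * n)).isLt
        have h2 := i.isLt
        by_cases hle : (s (m * n)).val ≤ i.val
        · refine ⟨i.val - (s (m * n)).val, by omega, Fin.ext ?_⟩
          rw [hs _ _ (by omega)]
          rw [show (s (m * n)).val + (i.val - (s (m * n)).val) = i.val by omega,
            Nat.mod_eq_of_lt h2]
        · refine ⟨i.val + n - (s (m * n)).val, by omega, Fin.ext ?_⟩
          rw [hs _ _ (by omega)]
          rw [show (s (m * n)).val + (i.val + n - (s (m * n)).val) = i.val + n by omega,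
            Nat.add_mod_right, Nat.mod_eq_of_lt h2]
      obtain ⟨j, hj, hsj⟩ := hex
      -- after this time the direction is final
      have hfin0 : v (m * n + (j + 1)) i ≠ b := by
        by_cases hc : i ∈ improving f (v (m * n + j))
        · have h1 := (h (m * n + j) (by omega)).2.1
          have h2 : ckr (s (m * n + j)) (improving f (v (m * n + j))) = i := by
            unfold ckr
            rw [hsj, if_pos hc]
          rw [h2] at h1
          rw [← add_assoc, h1, flip_self, (hb' j (by omega)).1 hc]
          cases b <;> simp
        · rw [← add_assoc, hstay _ (by omega) i hc]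
          intro h3
          exact hc ((hb' j (by omega)).2 h3)
      have hfin : ∀ l, m * n + (j + 1 + l) ≤ L → v (m * n + (j + 1 + l)) i ≠ b := by
        intro l
        induction l with
        | zero => intro _; exact hfin0
        | succ l ihl =>
          intro hl
          have h3 := ihl (by omega)
          have h4 : i ∉ improving f (v (m * n + (j + 1 + l))) := fun h5 =>
            h3 ((hb' _ (by omega)).1 h5)
          have h6 := hstay _ (by omega) i h4
          rw [show m * n + (j + 1 + (l + 1)) = m * n + (j + 1 + l) + 1 by ring, h6]
          exact h3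
      refine ⟨insert i Z, by rw [card_insert_of_notMem hiZ, hZ], fun k hk1 hk2 c hc => ?_⟩
      rcases mem_insert.1 hc with rfl | hc
      · obtain ⟨l, rfl⟩ := Nat.exists_eq_add_of_le (show m * n + (j + 1) ≤ k by omega)
        rw [add_assoc] at hk2 ⊢
        intro h5
        exact hfin l hk2 ((hb' _ hk2).1 h5)
      · exact hZi k (by omega) hk2 c hc
  by_contra hcon
  push Not at hcon
  rw [sq] at hcon
  obtain ⟨Z, hZ, hZi⟩ := key n le_rfl hcon.le
  have hZu : Z = univ := by
    rw [← card_eq_iff_eq_univ, hZ, Fintype.card_fin]
  obtain ⟨i, hi⟩ := (h (n * n) hcon).1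
  exact hZi (n * n) le_rfl hcon.le i (by rw [hZu]; exact mem_univ i) hi

end Pool.Agent.W945.Pm
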