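import Pool.Agent.H454R3.Select

/-!
# Measure lemmas
-/

namespace Pool.Agent.W945.Pm

open Finset Pool.Agent.H454R3

variable {α : Type*} [DecidableEq α]

lemma Pr_mem_le {p : ℝ} (h0 : 0 ≤ p) (h1 : p ≤ 1) (N : Finset α) (z : α) :
    Pr p N (fun S => z ∈ S) ≤ p := by
  by_cases hz : z ∈ N
  · have h := Ex_ind_mem p hz (fun _ => z)
    have e1 : Pr p N (fun S => z ∈ S) = Pr p N (fun S => z ∈ S ∧ (fun _ => z) S = z) := by
      unfold Pr
      exact Ex_congr fun S _ => by simp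
    rw [e1, h]
    have := Pr_le_one h0 h1 (N.erase z) (fun S => (fun _ => z) (insert z S) = z)
    nlinarith
  · have : Pr p N (fun S => z ∈ S) = 0 := by
      unfold Pr
      refine (Ex_congr fun S hS => ?_).trans (Ex_const p N 0)
      rw [if_neg fun h => hz (hS h)]
    rw [this]; exact h0

omit [DecidableEq α] in
lemma ind_aux (P D : Prop) (Z : Finset α) (m : α → Prop) {_ : Decidable P} {_ : Decidable (P ∧ D)}
    {_ : ∀ z, Decidable (m z)} (h : P → ¬ D → ∃ z ∈ Z, m z) :
    (if P then (1 : ℝ) else 0) ≤ (if P ∧ D then 1 else 0) + ∑ z ∈ Z, if m z then 1 else 0 := by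
  have hnn : ∀ z ∈ Z, (0 : ℝ) ≤ if m z then 1 else 0 := fun z _ => by split_ifs <;> norm_num
  have hs := sum_nonneg hnn
  by_cases hP : P
  · by_cases hd : D
    · rw [if_pos hP, if_pos ⟨hP, hd⟩]
      linarith
    · obtain ⟨z, hz1, hz2⟩ := h hP hd
      have := single_le_sum hnn hz1
      rw [if_pos hz2] at this
      rw [if_pos hP, if_neg fun h => hd h.2]
      linarith
  · rw [if_neg hP, if_neg fun h => hP h.1]
    linarith

/-- excluding a set of elements -/
lemma Pr_excl {p : ℝ} (h0 : 0 ≤ p) (h1 : p ≤ 1) (N : Finset α) (P : Finset α → Prop)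
    (Z : Finset α) :
    Pr p N P - p * Z.card ≤ Pr p N (fun S => P S ∧ Disjoint S Z) := by
  have e1 : Pr p N P ≤ Pr p N (fun S => P S ∧ Disjoint S Z) +
      ∑ z ∈ Z, Pr p N (fun S => z ∈ S) := by
    unfold Pr
    rw [← Ex_sum, ← Ex_add]
    refine Ex_mono h0 h1 fun S _ => ind_aux _ _ Z (fun z => z ∈ S) fun _ h => ?_
    rw [Finset.not_disjoint_iff] at h
    obtain ⟨z, hz1, hz2⟩ := h
    exact ⟨z, hz2, hz1⟩
  have e2 : ∑ z ∈ Z, Pr p N (fun S => z ∈ S) ≤ p * Z.card := by
    calc _ ≤ ∑ _z ∈ Z, p := sum_le_sum fun z _ => Pr_mem_le h0 h1 N z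
      _ = p * Z.card := by rw [sum_const, nsmul_eq_mul]; ring
  linarith

/-- a popular choice -/
lemma exists_pop {p : ℝ} (N : Finset α) (G : Finset α → Prop)
    (r : Finset α → α) (hG : ∀ S, G S → r S ∈ S) {γ : ℝ} (hγ : 0 < γ) (h : γ ≤ Pr p N G) {m : ℕ}
    (hm : N.card ≤ m) :
    ∃ x ∈ N, γ / m ≤ Pr p N (fun S => G S ∧ r S = x) := by
  classical
  have e1 : Pr p N G = ∑ x ∈ N, Pr p N (fun S => G S ∧ r S = x) := by
    unfold Pr
    rw [← Ex_sum]
    refine Ex_congr fun S hS => ?_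
    by_cases hGS : G S
    · rw [if_pos hGS, sum_eq_single_of_mem (r S) (hS (hG S hGS))]
      · rw [if_pos ⟨hGS, rfl⟩]
      · intro y _ hy
        rw [if_neg fun h => hy h.2.symm]
    · rw [if_neg hGS]
      refine (sum_eq_zero fun y _ => ?_).symm
      rw [if_neg fun h => hGS h.1]
  have hne : N.Nonempty := by
    rw [nonempty_iff_ne_empty]
    rintro rfl
    rw [e1, sum_empty] at h
    linarith
  by_contra hcon
  push Not at hcon
  have hm' : (N.card : ℝ) ≤ m := by exact_mod_cast hm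
  have hc : (0 : ℝ) < N.card := by exact_mod_cast hne.card_pos
  have e2 : ∑ x ∈ N, Pr p N (fun S => G S ∧ r S = x) < ∑ _x ∈ N, γ / m :=
    sum_lt_sum_of_nonempty hne fun x hx => hcon x hx
  rw [← e1, sum_const, nsmul_eq_mul] at e2
  have e3 : (N.card : ℝ) * (γ / m) ≤ γ := by
    rw [mul_div_assoc', div_le_iff₀ (by linarith)]
    nlinarith
  linarith

/-- a decreasing event is more likely on a smaller ground set -/
lemma Pr_anti {p : ℝ} (h0 : 0 ≤ p) (h1 : p ≤ 1) {N₁ N₂ : Finset α} (h : N₁ ⊆ N₂)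
    (P : Finset α → Prop) (hP : ∀ A B : Finset α, A ⊆ B → P B → P A) :
    Pr p N₂ P ≤ Pr p N₁ P := by
  have key : ∀ D : Finset α, Pr p (D ∪ N₁) P ≤ Pr p N₁ P := by
    intro D
    induction D using Finset.induction_on with
    | empty => rw [empty_union]
    | insert x D hx ih =>
      rw [insert_union]
      by_cases hxm : x ∈ D ∪ N₁
      · rw [insert_eq_of_mem hxm]; exact ih
      · rw [Pr_insert hxm]
        have : Pr p (D ∪ N₁) (fun S => P (insert x S)) ≤ Pr p (D ∪ N₁) P :=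
          Pr_mono h0 h1 fun S _ h => hP _ _ (subset_insert x S) h
        nlinarith
  have := key N₂
  rwa [union_eq_left.2 h] at this

lemma one_sub_pow_le_half {N : ℕ} (hN : 1 ≤ N) : (1 - 1 / (N : ℝ)) ^ N ≤ 1 / 2 := by
  have hN' : (1 : ℝ) ≤ N := by exact_mod_cast hN
  have h1 : 1 - 1 / (N : ℝ) ≤ Real.exp (-(1 / N)) := Real.one_sub_le_exp_neg _
  have h2 : 0 ≤ 1 - 1 / (N : ℝ) := by
    rw [sub_nonneg, div_le_one (by linarith)]; exact hN'
  calc (1 - 1 / (N : ℝ)) ^ N ≤ (Real.exp (-(1 / N))) ^ N := pow_le_pow_left₀ h2 h1 N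
    _ = Real.exp (-1) := by
        rw [← Real.exp_nat_mul]
        congr 1
        field_simp
    _ ≤ 1 / 2 := by
        have := Real.exp_neg_one_lt_d9
        linarith

/-- a dense family shatters a sparse random set with high probability -/
lemma shat_high {p : ℝ} (h0 : 0 ≤ p) (h1 : p ≤ 1 / 2) {k m : ℕ} (hk : 1 ≤ k) (hm : 1 ≤ m)
    (N : Finset α) (F : Finset α → Prop) (hF : (1 / 2 : ℝ) ^ k ≤ Pr p N F) :
    1 - 1 / (m : ℝ) ≤ Pr (p / ((m * k : ℕ) : ℝ)) N (Shat N F) := by
  have hmk : 1 ≤ m * k := Nat.mul_pos hm hk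
  have h2 := (hF.trans (pajor h0 h1 N F)).trans
    (Pr_pow_ge h0 (by linarith) hmk N (Shat N F) fun A B h hB => hB.mono h)
  by_contra h
  push Not at h
  have hk' : (1 : ℝ) ≤ ((m * k : ℕ) : ℝ) := by exact_mod_cast hmk
  have hq0 : 0 ≤ p / ((m * k : ℕ) : ℝ) := by positivity
  have hq1 : p / ((m * k : ℕ) : ℝ) ≤ 1 := by
    rw [div_le_one (by linarith)]; linarith
  have h3 := pow_lt_pow_left₀ h (Pr_nonneg hq0 hq1 N (Shat N F)) (n := m * k) (by omega)
  have h4 : (1 - 1 / (m : ℝ)) ^ (m * k) ≤ (1 / 2) ^ k := by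
    rw [pow_mul]
    apply pow_le_pow_left₀ _ (one_sub_pow_le_half hm)
    have hm' : (1 : ℝ) ≤ m := by exact_mod_cast hm
    have : 0 ≤ 1 - 1 / (m : ℝ) := by
      rw [sub_nonneg, div_le_one (by linarith)]; exact hm'
    positivity
  linarith

lemma Ex_card (p : ℝ) (N : Finset α) : Ex p N (fun S => (S.card : ℝ)) = p * N.card := by
  induction N using Finset.induction_on with
  | empty => rw [Ex_empty]; simp
  | insert x N hx ih =>
    have e : Ex p N (fun S => ((insert x S).card : ℝ)) = Ex p N (fun S => (S.card : ℝ)) + 1 := by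
      conv_rhs => rw [← Ex_const p N 1, ← Ex_add]
      exact Ex_congr fun S hS => by
        rw [card_insert_of_notMem fun h => hx (hS h)]; push_cast; ring
    rw [Ex_insert hx, e, ih, card_insert_of_notMem hx]
    push_cast
    ring

omit [DecidableEq α] in
lemma Ex_mul_const (p : ℝ) (N : Finset α) (f : Finset α → ℝ) (c : ℝ) :
    Ex p N (fun S => c * f S) = c * Ex p N f := by
  unfold Ex
  rw [mul_sum]
  exact sum_congr rfl fun S _ => by ring

lemma Ex_card_sq (p : ℝ) (N : Finset α) :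
    Ex p N (fun S => (S.card : ℝ) ^ 2) = (p * N.card) ^ 2 + p * (1 - p) * N.card := by
  induction N using Finset.induction_on with
  | empty => rw [Ex_empty]; simp
  | insert x N hx ih =>
    have e : Ex p N (fun S => ((insert x S).card : ℝ) ^ 2) =
        Ex p N (fun S => (S.card : ℝ) ^ 2) + 2 * Ex p N (fun S => (S.card : ℝ)) + 1 := by
      conv_rhs => rw [← Ex_const p N 1, ← Ex_mul_const, ← Ex_add, ← Ex_add]
      exact Ex_congr fun S hS => by
        rw [card_insert_of_notMem fun h => hx (hS h)]; push_cast; ring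
    rw [Ex_insert hx, e, ih, Ex_card, card_insert_of_notMem hx]
    push_cast
    ring

end Pool.Agent.W945.Pm
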