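import Pool.Agent.W945.Pm.Walk

/-!
# The steered Klee–Minty cube for rules with memory: the objective function
-/

namespace Pool.Agent.W945.Pm

open Finset Pool.Agent.H454R3

variable {n : ℕ} {Q : Type}
variable {r : Q → Finset (Fin n) → Fin n} {δ : Q → Finset (Fin n) → Q} {t : List (Fin n)}
  {q : Q} {A : Q → Prop} {rk : Q → ℕ} {w : Q → Fin n} {St : Q → Finset (Fin n) → Finset (Fin n)}
  {x₀ : Fin n → Bool} {s₀ : Q}

open Classical in
/-- the position of a direction in the order of dependence -/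
noncomputable def pos (t : List (Fin n)) (q : Q) (A : Q → Prop) (rk : Q → ℕ) (w : Q → Fin n)
    (K : ℕ) (z : Fin n) : ℕ :=
  if z ∈ t then t.length - t.idxOf z else
    if h : ∃ s, A s ∧ s ≠ q ∧ w s = z then t.length + 1 + (K - rk h.choose) else t.length + K + 2

lemma pos_t {K : ℕ} {z : Fin n} (hz : z ∈ t) : pos t q A rk w K z = t.length - t.idxOf z := by
  unfold pos; rw [if_pos hz]

lemma pos_w (H : Steer r δ t q A rk w St) {K : ℕ} {s : Q} (hs : A s) (hsq : s ≠ q) :
    pos t q A rk w K (w s) = t.length + 1 + (K - rk s) := by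
  have h : ∃ s', A s' ∧ s' ≠ q ∧ w s' = w s := ⟨s, hs, hsq, rfl⟩
  have h1 : h.choose = s := H.w_inj _ _ h.choose_spec.1 h.choose_spec.2.1 hs hsq h.choose_spec.2.2
  unfold pos
  rw [if_neg (H.w_notMem s hs hsq), dif_pos h, h1]

lemma pos_rest {K : ℕ} {z : Fin n} (hz : z ∉ t) (hw : ¬ ∃ s, A s ∧ s ≠ q ∧ w s = z) :
    pos t q A rk w K z = t.length + K + 2 := by
  unfold pos; rw [if_neg hz, dif_neg hw]

lemma run_empty (i m : ℕ) (h : Dd x₀ t (run r δ t St x₀ s₀ i).1 = ∅) :
    run r δ t St x₀ s₀ (i + m) = run r δ t St x₀ s₀ i := by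
  induction m with
  | zero => rfl
  | succ m ih =>
    rw [← add_assoc, run_succ, ih]
    unfold stp
    rw [if_pos h]

lemma consist (H : Steer r δ t q A rk w St) (hs₀ : A s₀) {K : ℕ} (hK : ∀ s, A s → rk s < K)
    (z : Fin n) (i m : ℕ)
    (h : ∀ c, pos t q A rk w K c < pos t q A rk w K z →
      (run r δ t St x₀ s₀ i).1 c = (run r δ t St x₀ s₀ (i + m)).1 c) :
    (z ∈ shown t St x₀ (run r δ t St x₀ s₀ i) ↔ z ∈ shown t St x₀ (run r δ t St x₀ s₀ (i + m))) ↔
      (run r δ t St x₀ s₀ i).1 z = (run r δ t St x₀ s₀ (i + m)).1 z := by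
  have hA := run_A (x₀ := x₀) H hs₀
  set a := run r δ t St x₀ s₀ i with ha
  set b := run r δ t St x₀ s₀ (i + m) with hb
  have hAa : A a.2 := hA i
  have hAb : A b.2 := hA (i + m)
  by_cases hz : z ∈ t
  · -- the main directions
    obtain ⟨l₁, l₂, ht⟩ := List.append_of_mem hz
    have hnd : (l₁ ++ z :: l₂).Nodup := ht ▸ H.nodup
    have hidx : t.idxOf z = l₁.length := by
      rw [ht, List.idxOf_append_of_notMem, List.idxOf_cons_self, add_zero]
      intro hz1
      have := (List.nodup_append.1 hnd).2.2 z hz1 z List.mem_cons_self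
      exact this rfl
    have hagree : ∀ c ∈ l₂, a.1 c = b.1 c := by
      intro c hc
      apply h
      have hct : c ∈ t := by rw [ht]; simp [hc]
      rw [pos_t hz, pos_t hct, hidx]
      have h1 : l₁.length < t.idxOf c := by
        have hc1 : c ∉ l₁ := fun hc1 =>
          (List.nodup_append.1 hnd).2.2 c hc1 c (List.mem_cons_of_mem z hc) rfl
        have hcz : z ≠ c := by
          rintro rfl
          exact (List.nodup_cons.1 (List.nodup_append.1 hnd).2.1).1 hc
        rw [ht, List.idxOf_append_of_notMem hc1, List.idxOf_cons_ne _ hcz]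
        omega
      have h2 : t.idxOf c < t.length := List.idxOf_lt_length_iff.2 hct
      omega
    have hshown : ∀ e : (Fin n → Bool) × Q, A e.2 →
        (z ∈ shown t St x₀ e ↔ z ∈ Dd x₀ t e.1) := by
      intro e he
      unfold shown
      split_ifs with h1
      · rw [h1]
      · have h2 := H.inter e.2 _ he (Dd_subset x₀ t e.1) (nonempty_iff_ne_empty.2 h1)
        constructor
        · intro h3
          rw [← h2]
          exact mem_inter.2 ⟨h3, List.mem_toFinset.2 hz⟩
        · intro h3
          rw [← h2] at h3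
          exact (mem_inter.1 h3).1
    rw [hshown a hAa, hshown b hAb]
    have := mem_Dd_congr x₀ l₁ z l₂ hnd a.1 b.1 hagree
    rwa [← ht] at this
  · -- the other directions
    have hpz : t.length < pos t q A rk w K z := by
      unfold pos
      rw [if_neg hz]
      split_ifs <;> omega
    have hagree : ∀ c ∈ t, a.1 c = b.1 c := by
      intro c hc
      apply h
      rw [pos_t hc]
      omega
    have hnum : num x₀ t b.1 = num x₀ t a.1 := (num_congr x₀ t _ _ hagree).symm
    have hDd : Dd x₀ t b.1 = Dd x₀ t a.1 := (Dd_congr x₀ t _ _ hagree).symm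
    rcases (Dd x₀ t a.1).eq_empty_or_nonempty with hD | hD
    · have hab : b = a := run_empty i m hD
      rw [hab]
      simp
    have hDb : (Dd x₀ t b.1).Nonempty := by rw [hDd]; exact hD
    have hsa : shown t St x₀ a = St a.2 (Dd x₀ t a.1) := by
      unfold shown; rw [if_neg hD.ne_empty]
    have hsb : shown t St x₀ b = St b.2 (Dd x₀ t b.1) := by
      unfold shown; rw [if_neg hDb.ne_empty]
    rcases stay (x₀ := x₀) H hs₀ i m hD hnum with hm | ⟨h1, h2, h3, h4⟩
    · have hab : b = a := by rw [hb, ha, hm]; rfl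
      rw [hab]
      simp
    rw [← ha] at h1 h2 h3 h4
    rw [← hb] at h2 h3 h4
    have hex_b : ∀ s', A s' → s' ≠ q → rk a.2 ≤ rk s' → w s' ∉ shown t St x₀ b := by
      intro s' hs' hs'q hle
      rw [hsb]
      refine H.excl b.2 s' _ hAb hs' hs'q ?_ (Or.inr (by omega)) (Dd_subset x₀ t b.1) hDb
      rintro rfl
      omega
    by_cases hw : ∃ s, A s ∧ s ≠ q ∧ w s = z
    · obtain ⟨s', hs', hs'q, rfl⟩ := hw
      rcases lt_trichotomy (rk s') (rk a.2) with hrk | hrk | hrk
      · -- not possible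
        exfalso
        have h5 := h (w a.2) (by
          rw [pos_w H hAa h1, pos_w H hs' hs'q]
          have := hK _ hAa
          omega)
        rw [h3] at h5
        cases hv : a.1 (w a.2) <;> rw [hv] at h5 <;> exact Bool.noConfusion h5
      · have hsa' : s' = a.2 := H.rk_inj _ _ hs' hAa hrk
        subst hsa'
        have h5 : w a.2 ∈ shown t St x₀ a := by
          rw [hsa]; exact H.mem _ _ hAa h1 (Dd_subset x₀ t a.1) hD
        have h6 := hex_b _ hs' hs'q le_rfl
        constructor
        · intro h7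
          exact absurd (h7.1 h5) h6
        · intro h7
          rw [h3] at h7
          exfalso
          cases hv : a.1 (w a.2) <;> rw [hv] at h7 <;> exact Bool.noConfusion h7
      · have h5 : w s' ∉ shown t St x₀ a := by
          rw [hsa]
          refine H.excl a.2 s' _ hAa hs' hs'q ?_ (Or.inr hrk) (Dd_subset x₀ t a.1) hD
          rintro rfl
          exact lt_irrefl _ hrk
        have h6 := hex_b _ hs' hs'q hrk.le
        rw [h4 s' hs' hs'q hrk]
        simp [h5, h6]
    · exfalso
      have h5 := h (w a.2) (by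
        rw [pos_w H hAa h1, pos_rest hz hw]
        omega)
      rw [h3] at h5
      cases hv : a.1 (w a.2) <;> rw [hv] at h5 <;> exact Bool.noConfusion h5

/-- **The steered Klee–Minty cube for rules with memory.** -/
theorem steered (H : Steer r δ t q A rk w St) (hs₀ : A s₀) {K : ℕ} (hK : ∀ s, A s → rk s < K)
    (x₀ : Fin n → Bool) :
    ∃ f : (Fin n → Bool) → ℕ, Function.Injective f ∧ Combed f ∧
      ∃ (L : ℕ) (v : ℕ → (Fin n → Bool)) (s : ℕ → Q), v 0 = x₀ ∧ s 0 = s₀ ∧
        (∀ k < L, (improving f (v k)).Nonempty ∧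
          v (k + 1) = flip (v k) (r (s k) (improving f (v k))) ∧
          s (k + 1) = δ (s k) (improving f (v k))) ∧
        improving f (v L) = ∅ ∧ 2 ^ t.length ≤ L + 1 := by
  have hA := run_A (x₀ := x₀) H hs₀
  obtain ⟨f, hf1, hf2, hf3⟩ := realise (pos t q A rk w K)
    (fun i => (run r δ t St x₀ s₀ i).1) (fun i => shown t St x₀ (run r δ t St x₀ s₀ i))
    (by
      intro z i j h
      rcases Nat.le_total i j with hij | hij
      · obtain ⟨m, rfl⟩ := Nat.exists_eq_add_of_le hij
        exact consist H hs₀ hK z i m h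
      · obtain ⟨m, rfl⟩ := Nat.exists_eq_add_of_le hij
        have := consist (x₀ := x₀) H hs₀ hK z j m fun c hc => (h c hc).symm
        rw [Iff.comm (a := z ∈ shown t St x₀ (run r δ t St x₀ s₀ (j + m))), this]
        exact eq_comm)
  -- the run stops
  have hstop : ∃ k, Dd x₀ t (run r δ t St x₀ s₀ k).1 = ∅ := by
    by_contra hne
    push Not at hne
    have hne' : ∀ k, (Dd x₀ t (run r δ t St x₀ s₀ k).1).Nonempty := hne
    set φ : ℕ → ℕ := fun k => num x₀ t (run r δ t St x₀ s₀ k).1 * (K + 1) +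
      rk (run r δ t St x₀ s₀ k).2 with hφ
    have hdec : ∀ k, φ (k + 1) < φ k := by
      intro k
      obtain ⟨h1, h2⟩ := stp_spec (x₀ := x₀) H _ (hA k) (hne' k)
      rw [← run_succ] at h1 h2
      have h3 := hK _ h1
      simp only [hφ]
      rcases h2 with ⟨-, h2⟩ | ⟨-, h2, -, h4⟩
      · rw [← h2, add_mul]
        omega
      · rw [h2]; omega
    have hle : ∀ k, φ k + k ≤ φ 0 := by
      intro k
      induction k with
      | zero => omega
      | succ k ih => have := hdec k; omega
    have := hle (φ 0 + 1)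
    omega
  classical
  set L := Nat.find hstop with hL
  have hL1 : Dd x₀ t (run r δ t St x₀ s₀ L).1 = ∅ := Nat.find_spec hstop
  have hL2 : ∀ k < L, Dd x₀ t (run r δ t St x₀ s₀ k).1 ≠ ∅ := fun k hk => Nat.find_min hstop hk
  refine ⟨f, hf1, hf2, L, fun k => (run r δ t St x₀ s₀ k).1, fun k => (run r δ t St x₀ s₀ k).2,
    rfl, rfl, ?_, ?_, ?_⟩
  · intro k hk
    simp only
    have h1 : shown t St x₀ (run r δ t St x₀ s₀ k) =
        St (run r δ t St x₀ s₀ k).2 (Dd x₀ t (run r δ t St x₀ s₀ k).1) := by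
      unfold shown; rw [if_neg (hL2 k hk)]
    have h2 := nonempty_iff_ne_empty.2 (hL2 k hk)
    rw [hf3, run_succ, h1]
    refine ⟨?_, ?_, ?_⟩
    · obtain ⟨y, hy⟩ := h2
      rw [← H.inter _ _ (hA k) (Dd_subset x₀ t _) ⟨y, hy⟩] at hy
      exact ⟨y, (mem_inter.1 hy).1⟩
    · unfold stp; rw [if_neg (hL2 k hk)]
    · unfold stp; rw [if_neg (hL2 k hk)]
  · simp only
    rw [hf3]
    unfold shown
    rw [if_pos hL1]
  · have h1 : ∀ k, num x₀ t x₀ ≤ num x₀ t (run r δ t St x₀ s₀ k).1 + k := by
      intro k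
      induction k with
      | zero => exact le_rfl
      | succ k ih =>
        have := (num_mono (x₀ := x₀) H hs₀ k).2
        omega
    have h2 := h1 L
    have h3 : num x₀ t (run r δ t St x₀ s₀ L).1 = 0 := (num_eq_zero x₀ t _).2 hL1
    have h4 := num_self x₀ t
    omega

end Pool.Agent.W945.Pm
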