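import Pool.Agent.W945.Pm.Sel
import Pool.Agent.W945.Pm.Walk2

/-!
# Reachability of memory states on a stable ground set
-/

namespace Pool.Agent.W945.Pm

open Finset Pool.Agent.H454R3

section stable

variable {α β : Type*} [Fintype α] [DecidableEq α] [Fintype β] [DecidableEq β]

/-- a ground set on which a decreasing family of sets is stable -/
lemma exists_stable (R : Finset α → Finset β) (hR : ∀ N N', N' ⊆ N → R N ⊆ R N') (Δ : ℕ) :
    ∃ N : Finset α, (univ \ N).card ≤ Δ * Fintype.card β ∧
      ∀ N' ⊆ N, (N \ N').card ≤ Δ → R N' = R N := by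
  classical
  obtain ⟨N, hN, hmax⟩ := exists_max_image
    ((univ : Finset (Finset α)).filter fun N => (univ \ N).card ≤ Δ * (R N).card)
    (fun N => (R N).card) ⟨univ, by simp⟩
  rw [mem_filter] at hN
  refine ⟨N, hN.2.trans (Nat.mul_le_mul_left _ (card_le_univ _)), fun N' hN' hc => ?_⟩
  by_contra hne
  have h1 : R N ⊂ R N' := (hR N N' hN').ssubset_of_ne (Ne.symm hne)
  have h2 := card_lt_card h1
  have h3 : (univ \ N').card ≤ Δ * (R N').card := by
    have h4 : univ \ N' ⊆ (univ \ N) ∪ (N \ N') := by
      intro x hx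
      rw [mem_union, mem_sdiff, mem_sdiff]
      rw [mem_sdiff] at hx
      by_cases hxN : x ∈ N
      · exact Or.inr ⟨hxN, hx.2⟩
      · exact Or.inl ⟨mem_univ x, hxN⟩
    calc (univ \ N').card ≤ ((univ \ N) ∪ (N \ N')).card := card_le_card h4
      _ ≤ (univ \ N).card + (N \ N').card := card_union_le _ _
      _ ≤ Δ * (R N).card + Δ := Nat.add_le_add hN.2 hc
      _ = Δ * ((R N).card + 1) := by ring
      _ ≤ Δ * (R N').card := Nat.mul_le_mul_left _ h2
  have h5 := hmax N' (by rw [mem_filter]; exact ⟨mem_univ _, h3⟩)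
  omega

end stable

section graph

variable {Q : Type} [Fintype Q]

/-- a state from which there is no return only within its own class -/
lemma exists_terminal (e : Q → Q → Prop) (s₀ : Q) :
    ∃ q, Relation.ReflTransGen e s₀ q ∧
      ∀ s, Relation.ReflTransGen e q s → Relation.ReflTransGen e s q := by
  classical
  obtain ⟨q, hq, hmin⟩ := exists_min_image
    ((univ : Finset Q).filter fun q => Relation.ReflTransGen e s₀ q)
    (fun q => ((univ : Finset Q).filter fun s => Relation.ReflTransGen e q s).card)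
    ⟨s₀, by rw [mem_filter]; exact ⟨mem_univ _, Relation.ReflTransGen.refl⟩⟩
  rw [mem_filter] at hq
  refine ⟨q, hq.2, fun s hs => ?_⟩
  have h1 := hmin s (by rw [mem_filter]; exact ⟨mem_univ _, hq.2.trans hs⟩)
  have h2 : ((univ : Finset Q).filter fun s' => Relation.ReflTransGen e s s') ⊆
      ((univ : Finset Q).filter fun s' => Relation.ReflTransGen e q s') := by
    intro x hx
    rw [mem_filter] at hx ⊢
    exact ⟨mem_univ _, hs.trans hx.2⟩
  have h3 := eq_of_subset_of_card_le h2 h1
  have h4 : q ∈ ((univ : Finset Q).filter fun s' => Relation.ReflTransGen e q s') := by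
    rw [mem_filter]; exact ⟨mem_univ _, Relation.ReflTransGen.refl⟩
  rw [← h3, mem_filter] at h4
  exact h4.2

/-- `q` can be reached in `n` steps -/
def Dn (e : Q → Q → Prop) (q : Q) : ℕ → Q → Prop
  | 0, s => s = q
  | n + 1, s => ∃ s', e s s' ∧ Dn e q n s'

omit [Fintype Q] in
lemma Dn_reach (e : Q → Q → Prop) (q : Q) (n : ℕ) (s : Q) (h : Dn e q n s) :
    Relation.ReflTransGen e s q := by
  induction n generalizing s with
  | zero => rw [show s = q from h]
  | succ n ih =>
    obtain ⟨s', h1, h2⟩ := h
    exact (ih s' h2).head h1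

omit [Fintype Q] in
lemma reach_Dn (e : Q → Q → Prop) (q : Q) (s : Q) (h : Relation.ReflTransGen e s q) :
    ∃ n, Dn e q n s := by
  induction h using Relation.ReflTransGen.head_induction_on with
  | refl => exact ⟨0, rfl⟩
  | head h1 _ ih =>
    obtain ⟨n, hn⟩ := ih
    exact ⟨n + 1, _, h1, hn⟩

end graph

/-- a ranking of the states from which `q` can be reached -/
lemma exists_rank {M : ℕ} (e : Fin M → Fin M → Prop) (q : Fin M) :
    ∃ (rk : Fin M → ℕ) (nxt : Fin M → Fin M),
      (∀ s s', rk s = rk s' → s = s') ∧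
      ∀ s, Relation.ReflTransGen e s q → s ≠ q →
        e s (nxt s) ∧ Relation.ReflTransGen e (nxt s) q ∧ rk (nxt s) < rk s := by
  classical
  set d : Fin M → ℕ := fun s => if h : ∃ n, Dn e q n s then Nat.find h else 0 with hd
  have hstep : ∀ s, ∃ s', (Relation.ReflTransGen e s q → s ≠ q →
      e s s' ∧ Relation.ReflTransGen e s' q ∧ d s' < d s) := by
    intro s
    by_cases hs : Relation.ReflTransGen e s q ∧ s ≠ q
    · have hex := reach_Dn e q s hs.1
      have h1 : d s = Nat.find hex := by rw [hd]; simp only; rw [dif_pos hex]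
      have h2 := Nat.find_spec hex
      rw [← h1] at h2
      rcases hds : d s with _ | m
      · rw [hds] at h2
        exact absurd h2 hs.2
      · rw [hds] at h2
        obtain ⟨s', h3, h4⟩ := h2
        refine ⟨s', fun _ _ => ⟨h3, Dn_reach e q m s' h4, ?_⟩⟩
        have hex' : ∃ n, Dn e q n s' := ⟨m, h4⟩
        have h5 : d s' = Nat.find hex' := by rw [hd]; simp only; rw [dif_pos hex']
        have h6 := Nat.find_min' hex' h4
        omega
    · exact ⟨s, fun h1 h2 => absurd ⟨h1, h2⟩ hs⟩
  choose nxt hnxt using hstep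
  refine ⟨fun s => d s * M + s.val, nxt, ?_, ?_⟩
  · intro s s' h
    simp only at h
    have h1 := s.isLt
    have h2 := s'.isLt
    apply Fin.ext
    have h3 : (d s * M + s.val) % M = (d s' * M + s'.val) % M := by rw [h]
    rw [Nat.mul_add_mod', Nat.mul_add_mod', Nat.mod_eq_of_lt h1, Nat.mod_eq_of_lt h2] at h3
    exact h3
  · intro s h1 h2
    obtain ⟨h3, h4, h5⟩ := hnxt s h1 h2
    refine ⟨h3, h4, ?_⟩
    have h6 := (nxt s).isLt
    have h7 : (d (nxt s) + 1) * M ≤ d s * M := Nat.mul_le_mul_right _ h5
    simp only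
    nlinarith

section choosew

variable {n M : ℕ}

open Classical in
/-- the auxiliary directions of the states of higher rank -/
noncomputable def Wh (A : Fin M → Prop) (q : Fin M) (rk : Fin M → ℕ) (w : Fin M → Fin n)
    (s : Fin M) : Finset (Fin n) :=
  ((univ : Finset (Fin M)).filter fun s' => A s' ∧ s' ≠ q ∧ rk s < rk s').image w

lemma Wh_card (A : Fin M → Prop) (q : Fin M) (rk : Fin M → ℕ) (w : Fin M → Fin n)
    (s : Fin M) : (Wh A q rk w s).card ≤ M := by
  classical
  calc (Wh A q rk w s).card ≤ _ := card_image_le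
    _ ≤ (univ : Finset (Fin M)).card := card_filter_le _ _
    _ = M := by simp

/-- choice of the auxiliary directions -/
lemma exists_w {p : ℝ} (h0 : 0 ≤ p) (h1 : p ≤ 1) (r : Fin M → Finset (Fin n) → Fin n)
    (A : Fin M → Prop) (q : Fin M) (rk : Fin M → ℕ) (hrk : ∀ s s', rk s = rk s' → s = s')
    (hn : 0 < n) (G : Fin M → Finset (Fin n) → Prop) (hG : ∀ s S, G s S → r s S ∈ S)
    (Gr : Fin M → Finset (Fin n)) {b : ℝ} (hb : p * M < b)
    (hGr : ∀ s, A s → s ≠ q → b ≤ Pr p (Gr s) (G s)) :
    ∃ w : Fin M → Fin n, ∀ s, A s → s ≠ q →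
      (b - p * M) / n ≤
        Pr p (Gr s) (fun S => (G s S ∧ Disjoint S (Wh A q rk w s)) ∧ r s S = w s) := by
  classical
  obtain ⟨K, hK⟩ : ∃ K, ∀ s, rk s < K := by
    refine ⟨(univ.sup rk) + 1, fun s => ?_⟩
    have := le_sup (f := rk) (mem_univ s)
    omega
  have key : ∀ j, ∃ w : Fin M → Fin n, ∀ s, A s → s ≠ q → K ≤ rk s + j →
      (b - p * M) / n ≤
        Pr p (Gr s) (fun S => (G s S ∧ Disjoint S (Wh A q rk w s)) ∧ r s S = w s) := by
    intro j
    induction j with
    | zero =>
      refine ⟨fun _ => ⟨0, hn⟩, fun s _ _ h => ?_⟩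
      have := hK s
      omega
    | succ j ih =>
      obtain ⟨w, hw⟩ := ih
      by_cases hs : ∃ s, A s ∧ s ≠ q ∧ rk s + (j + 1) = K
      · obtain ⟨s, hs1, hs2, hs3⟩ := hs
        have e1 := Pr_excl h0 h1 (Gr s) (G s) (Wh A q rk w s)
        have e2 : p * ((Wh A q rk w s).card : ℝ) ≤ p * M := by
          apply mul_le_mul_of_nonneg_left _ h0
          exact_mod_cast Wh_card A q rk w s
        have e3 : b - p * M ≤ Pr p (Gr s) (fun S => G s S ∧ Disjoint S (Wh A q rk w s)) := by
          have := hGr s hs1 hs2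
          linarith
        obtain ⟨x, hx, h⟩ := exists_pop (Gr s) (fun S => G s S ∧ Disjoint S (Wh A q rk w s)) (r s)
          (fun S hS => hG s S hS.1) (by linarith) e3 (m := n)
          ((card_le_univ _).trans (by simp))
        have hWh : ∀ s', K ≤ rk s' + (j + 1) →
            Wh A q rk (Function.update w s x) s' = Wh A q rk w s' := by
          intro s' hs'
          unfold Wh
          apply image_congr
          intro u hu
          rw [coe_filter] at hu
          have hus : u ≠ s := by
            rintro rfl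
            have := hu.2.2.2
            omega
          exact Function.update_of_ne hus _ _
        refine ⟨Function.update w s x, fun s' hs'1 hs'2 hs'3 => ?_⟩
        rw [hWh s' hs'3]
        by_cases hss : s' = s
        · subst hss
          rw [Function.update_self]
          exact h
        · rw [Function.update_of_ne hss]
          apply hw s' hs'1 hs'2
          by_contra hcon
          apply hss
          apply hrk
          omega
      · refine ⟨w, fun s hs1 hs2 hs3 => hw s hs1 hs2 ?_⟩
        by_contra hcon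
        exact hs ⟨s, hs1, hs2, by omega⟩
  obtain ⟨w, hw⟩ := key K
  exact ⟨w, fun s h2 h3 => hw s h2 h3 (by omega)⟩

end choosew

end Pool.Agent.W945.Pm
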