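import Pool.Agent.H454R3.Tri

/-!
# Prescribed sets of improving directions

A family of vertices with prescribed sets of improving directions is realised by a combed objective
function if it is consistent with a triangular dependence of the directions.
-/

namespace Pool.Agent.W945.Pm

open Finset Pool.Agent.H454R3

variable {n : ℕ}

theorem tri_of_pos (c : Fin n → (Fin n → Bool) → Bool) (pos : Fin n → ℕ)
    (hc : ∀ z u u', (∀ i, pos i < pos z → u i = u' i) → c z u = c z u') :
    ∀ L : List (Fin n), L.Pairwise (fun a b => pos a < pos b) →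
      (∀ i, i ∉ L → ∀ j ∈ L, pos i < pos j) → Tri c L := by
  intro L
  induction L with
  | nil => intro _ _; trivial
  | cons z L ih =>
    intro h1 h2
    rw [List.pairwise_cons] at h1
    refine ⟨fun u u' h => hc z u u' fun i hi => h i ?_, ih h1.2 fun i hi j hj => ?_⟩
    · intro h3
      rcases List.mem_cons.1 h3 with h4 | h4
      · rw [h4] at hi; omega
      · have := h1.1 i h4; omega
    · by_cases hiz : i = z
      · rw [hiz]; exact h1.1 j hj
      · exact h2 i (by simp [hiz, hi]) j (List.mem_cons_of_mem z hj)

/-- **Realisation.** -/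
theorem realise {ι : Type*} (pos : Fin n → ℕ) (v : ι → (Fin n → Bool)) (S : ι → Finset (Fin n))
    (h : ∀ z i j, (∀ c, pos c < pos z → v i c = v j c) →
      ((z ∈ S i ↔ z ∈ S j) ↔ v i z = v j z)) :
    ∃ f : (Fin n → Bool) → ℕ, Function.Injective f ∧ Combed f ∧ ∀ i, improving f (v i) = S i := by
  classical
  -- make the positions injective
  set pos' : Fin n → ℕ := fun z => pos z * n + z.val with hpos'
  have hlt : ∀ a b, pos a < pos b → pos' a < pos' b := by
    intro a b hab
    have h1 := a.isLt
    have : (pos a + 1) * n ≤ pos b * n := Nat.mul_le_mul_right _ hab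
    simp only [hpos']
    nlinarith
  have hinj : Function.Injective pos' := by
    intro a b hab
    rcases lt_trichotomy (pos a) (pos b) with h1 | h1 | h1
    · exact absurd hab (hlt a b h1).ne
    · apply Fin.ext
      simp only [hpos', h1] at hab
      omega
    · exact absurd hab (hlt b a h1).ne'
  have hx : ∀ z (u : Fin n → Bool), ∃ b : Bool, ∀ i, (∀ c, pos' c < pos' z → v i c = u c) →
      (z ∈ S i ↔ v i z = b) := by
    intro z u
    by_cases hi : ∃ i, ∀ c, pos' c < pos' z → v i c = u c
    · obtain ⟨i, hi⟩ := hi
      refine ⟨if z ∈ S i then v i z else !(v i z), fun j hj => ?_⟩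
      have h1 := h z i j fun c hc => by rw [hi c (hlt c z hc), hj c (hlt c z hc)]
      by_cases h2 : z ∈ S i
      · rw [if_pos h2]
        have h3 : z ∈ S j ↔ v i z = v j z := by
          rw [← h1]; simp [h2]
        rw [h3]
        exact eq_comm
      · rw [if_neg h2]
        have h3 : ¬ z ∈ S j ↔ v i z = v j z := by
          rw [← h1]; simp [h2]
        rw [← not_iff_not, h3]
        cases v i z <;> cases v j z <;> simp
    · exact ⟨false, fun j hj => absurd ⟨j, hj⟩ hi⟩
  -- the orientation
  choose g hg using hx
  set c : Fin n → (Fin n → Bool) → Bool := fun z u =>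
    g z (fun i => if pos' i < pos' z then u i else false) with hcdef
  have hc1 : ∀ z u u', (∀ i, pos' i < pos' z → u i = u' i) → c z u = c z u' := by
    intro z u u' huu
    have : (fun i => if pos' i < pos' z then u i else false) =
        (fun i => if pos' i < pos' z then u' i else false) := by
      funext i
      split_ifs with hi
      · exact huu i hi
      · rfl
    exact congrArg (g z) this
  have hc2 : ∀ z i, (z ∈ S i ↔ v i z = c z (v i)) := by
    intro z i
    refine hg z (fun j => if pos' j < pos' z then v i j else false) i fun d hd => ?_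
    simp only [if_pos hd]
  -- the list of all directions
  obtain ⟨L, hL1, hL2⟩ : ∃ L : List (Fin n), L.Pairwise (fun a b => pos' a < pos' b) ∧
      ∀ i, i ∈ L := by
    have : Std.Total (fun a b : Fin n => pos' a ≤ pos' b) := ⟨fun a b => le_total _ _⟩
    have : IsTrans (Fin n) (fun a b : Fin n => pos' a ≤ pos' b) := ⟨fun a b c h1 h2 => le_trans h1 h2⟩
    have : Std.Antisymm (fun a b : Fin n => pos' a ≤ pos' b) :=
      ⟨fun a b h1 h2 => hinj (le_antisymm h1 h2)⟩
    refine ⟨(univ : Finset (Fin n)).sort (fun a b => pos' a ≤ pos' b), ?_, ?_⟩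
    · have h1 := (univ : Finset (Fin n)).pairwise_sort (fun a b => pos' a ≤ pos' b)
      have h2 := (univ : Finset (Fin n)).sort_nodup (fun a b => pos' a ≤ pos' b)
      exact (h1.and h2).imp fun {a b} hab => lt_of_le_of_ne hab.1 fun h => hab.2 (hinj h)
    · intro i; simp
  obtain ⟨f, hf1, hf2, hf3⟩ := exists_tri c L
    (hL1.imp fun {a b} hab h => by rw [h] at hab; exact lt_irrefl _ hab) hL2
    (tri_of_pos c pos' hc1 L hL1 fun i hi => absurd (hL2 i) hi)
  refine ⟨f, hf1, hf2, fun i => ?_⟩
  ext z
  rw [hf3, hc2]

end Pool.Agent.W945.Pm
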