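import Pool.Agent.W945.Pm.Pop

/-!
# Selecting the directions which are steered
-/

namespace Pool.Agent.W945.Pm

open Finset Pool.Agent.H454R3

variable {α : Type*} [DecidableEq α]

open Classical in
/-- the selected elements -/
noncomputable def sl (P : α → List α → Finset α → Prop) (M : Finset α) : List α → List α
  | [] => []
  | x :: l => if x ∈ M ∧ P x l (M ∩ l.toFinset) then x :: sl P M l else sl P M l

variable {P : α → List α → Finset α → Prop}

lemma sl_subset (M : Finset α) (l : List α) : ∀ x ∈ sl P M l, x ∈ M ∧ x ∈ l := by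
  induction l with
  | nil => simp [sl]
  | cons y l ih =>
    intro x hx
    unfold sl at hx
    split_ifs at hx with h
    · rcases List.mem_cons.1 hx with h1 | h1
      · subst h1
        exact ⟨h.1, List.mem_cons_self⟩
      · exact ⟨(ih x h1).1, List.mem_cons_of_mem y (ih x h1).2⟩
    · exact ⟨(ih x hx).1, List.mem_cons_of_mem y (ih x hx).2⟩

lemma sl_congr (M M' : Finset α) (l : List α)
    (h : M ∩ l.toFinset = M' ∩ l.toFinset) : sl P M l = sl P M' l := by
  induction l with
  | nil => rfl
  | cons y l ih =>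
    have h1 : ∀ z ∈ y :: l, (z ∈ M ↔ z ∈ M') := by
      intro z hz
      have hz' : z ∈ (y :: l).toFinset := List.mem_toFinset.2 hz
      constructor
      · intro h2
        have : z ∈ M ∩ (y :: l).toFinset := mem_inter.2 ⟨h2, hz'⟩
        rw [h] at this
        exact (mem_inter.1 this).1
      · intro h2
        have : z ∈ M' ∩ (y :: l).toFinset := mem_inter.2 ⟨h2, hz'⟩
        rw [← h] at this
        exact (mem_inter.1 this).1
    have h2 : M ∩ l.toFinset = M' ∩ l.toFinset := by
      ext z
      simp only [mem_inter, List.mem_toFinset]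
      constructor
      · rintro ⟨a, b⟩
        exact ⟨(h1 z (List.mem_cons_of_mem y b)).1 a, b⟩
      · rintro ⟨a, b⟩
        exact ⟨(h1 z (List.mem_cons_of_mem y b)).2 a, b⟩
    have h3 := h1 y List.mem_cons_self
    have h4 : (y ∈ M ∧ P y l (M ∩ l.toFinset)) ↔ (y ∈ M' ∧ P y l (M' ∩ l.toFinset)) := by
      rw [h2, h3]
    unfold sl
    by_cases hc : y ∈ M ∧ P y l (M ∩ l.toFinset)
    · rw [if_pos hc, if_pos (h4.1 hc), ih h2]
    · rw [if_neg hc, if_neg fun h => hc (h4.2 h), ih h2]

lemma sl_nodup (M : Finset α) (l : List α) (hl : l.Nodup) : (sl P M l).Nodup := by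
  induction l with
  | nil => simp [sl]
  | cons y l ih =>
    rw [List.nodup_cons] at hl
    unfold sl
    split_ifs with h
    · exact List.nodup_cons.2 ⟨fun h1 => hl.1 (sl_subset M l y h1).2, ih hl.2⟩
    · exact ih hl.2

lemma sl_length (M : Finset α) (l : List α) (hl : l.Nodup) : (sl P M l).length ≤ M.card := by
  rw [← List.toFinset_card_of_nodup (sl_nodup M l hl)]
  exact card_le_card fun x hx => (sl_subset M l x (List.mem_toFinset.1 hx)).1

/-- the events `P x l` for the suffixes `x :: l` of a list have probability at least `c` -/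
def Lk (P : α → List α → Finset α → Prop) (ρ c : ℝ) : List α → Prop
  | [] => True
  | x :: l => x ∉ l ∧ c ≤ Pr ρ l.toFinset (P x l) ∧ Lk P ρ c l

lemma Lk.nodup {ρ c : ℝ} {l : List α} (h : Lk P ρ c l) : l.Nodup := by
  induction l with
  | nil => simp
  | cons x l ih => exact List.nodup_cons.2 ⟨h.1, ih h.2.2⟩

lemma Ex_sl {ρ c : ℝ} (h0 : 0 ≤ ρ) (l : List α) (hl : Lk P ρ c l) :
    (l.length : ℝ) * (ρ * c) ≤ Ex ρ l.toFinset (fun M => ((sl P M l).length : ℝ)) := by
  induction l with
  | nil => simp [Ex_empty, sl]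
  | cons x l ih =>
    have hx : x ∉ l.toFinset := fun h => hl.1 (List.mem_toFinset.1 h)
    rw [List.toFinset_cons, Ex_insert hx]
    have e1 : Ex ρ l.toFinset (fun M => ((sl P M (x :: l)).length : ℝ)) =
        Ex ρ l.toFinset (fun M => ((sl P M l).length : ℝ)) := by
      refine Ex_congr fun S hS => ?_
      have : ¬ (x ∈ S ∧ P x l (S ∩ l.toFinset)) := fun h => hx (hS h.1)
      simp only [sl, this, if_false]
    have e2 : Ex ρ l.toFinset (fun M => ((sl P (insert x M) (x :: l)).length : ℝ)) =
        Ex ρ l.toFinset (fun M => ((sl P M l).length : ℝ)) + Pr ρ l.toFinset (P x l) := by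
      unfold Pr
      rw [← Ex_add]
      refine Ex_congr fun S hS => ?_
      have h1 : insert x S ∩ l.toFinset = S := by
        rw [insert_inter_of_notMem hx, inter_eq_left.2 hS]
      have h2 : sl P (insert x S) l = sl P S l := by
        apply sl_congr
        rw [h1, inter_eq_left.2 hS]
      have h3 : x ∈ insert x S := mem_insert_self x S
      by_cases hQ : P x l S
      · simp only [sl, h1, h2, h3, hQ, and_self, if_true, List.length_cons]
        push_cast
        ring
      · simp only [sl, h1, h2, hQ, and_false, if_false, add_zero]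
    rw [e1, e2]
    have e4 := ih hl.2.2
    have e5 : ρ * c ≤ ρ * Pr ρ l.toFinset (P x l) := mul_le_mul_of_nonneg_left hl.2.1 h0
    rw [List.length_cons]
    push_cast
    linarith

/-- choosing the random set so that it has a likely property and many elements are selected -/
lemma choose_set {ρ c : ℝ} (h0 : 0 < ρ) (h1 : ρ ≤ 1) (l : List α) (hl : Lk P ρ c l)
    (pass : Finset α → Prop) (hpass : Pr ρ l.toFinset (fun S => ¬ pass S) ≤ 1 / 16) :
    ∃ M ⊆ l.toFinset, pass M ∧
      (l.length : ℝ) * (ρ * c) - (l.length : ℝ) * ρ / 4 - 1 / 8 ≤ (sl P M l).length := by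
  classical
  have hnd := hl.nodup
  have hcard : (l.toFinset.card : ℝ) = l.length := by
    rw [List.toFinset_card_of_nodup hnd]
  -- there is a set which passes
  have hex : ∃ M ⊆ l.toFinset, pass M := by
    by_contra hcon
    push Not at hcon
    have : Pr ρ l.toFinset (fun S => ¬ pass S) = 1 := by
      unfold Pr
      refine (Ex_congr fun S hS => ?_).trans (Ex_const ρ l.toFinset 1)
      rw [if_pos (hcon S hS)]
    rw [this] at hpass
    norm_num at hpass
  by_cases hneg : (l.length : ℝ) * (ρ * c) - (l.length : ℝ) * ρ / 4 - 1 / 8 ≤ 0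
  · obtain ⟨M, hM, hM'⟩ := hex
    exact ⟨M, hM, hM', hneg.trans (Nat.cast_nonneg _)⟩
  push Not at hneg
  have hJ : (1 : ℝ) ≤ l.length := by
    have : l.length ≠ 0 := by
      intro h
      rw [h] at hneg
      norm_num at hneg
    exact_mod_cast Nat.one_le_iff_ne_zero.2 this
  set J : ℝ := ((l.length : ℕ) : ℝ) with hJdef
  set lam : ℝ := 1 / (4 * ρ * J) with hlam
  have hρJ : 0 < ρ * J := by positivity
  have hlam0 : 0 < lam := by positivity
  -- the expectation
  have key : J * (ρ * c) - J * ρ / 4 - 1 / 8 ≤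
      Ex ρ l.toFinset (fun M => if pass M then ((sl P M l).length : ℝ) else 0) := by
    have e1 : Ex ρ l.toFinset (fun M => ((sl P M l).length : ℝ)) ≤
        Ex ρ l.toFinset (fun M => ((if pass M then ((sl P M l).length : ℝ) else 0) +
          lam / 2 * (M.card : ℝ) ^ 2) + 1 / (2 * lam) * (if ¬ pass M then 1 else 0)) := by
      refine Ex_mono h0.le h1 fun S _ => ?_
      have h3 : 0 ≤ lam / 2 * (S.card : ℝ) ^ 2 := by positivity
      by_cases hp : pass S
      · rw [if_pos hp, if_neg (not_not.2 hp)]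
        linarith
      · rw [if_neg hp, if_pos hp]
        have h4 : ((sl P S l).length : ℝ) ≤ S.card := by exact_mod_cast sl_length S l hnd
        have h5 : (S.card : ℝ) ≤ lam / 2 * (S.card : ℝ) ^ 2 + 1 / (2 * lam) := by
          have h6 : 0 ≤ (lam * (S.card : ℝ) - 1) ^ 2 := sq_nonneg _
          have h7 : lam / 2 * (S.card : ℝ) ^ 2 + 1 / (2 * lam) - S.card =
              (lam * (S.card : ℝ) - 1) ^ 2 / (2 * lam) := by
            field_simp
            ring
          have h8 : 0 ≤ (lam * (S.card : ℝ) - 1) ^ 2 / (2 * lam) := by positivity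
          linarith
        linarith
    rw [Ex_add, Ex_add, Ex_mul_const, Ex_mul_const, Ex_card_sq, hcard] at e1
    have e2 := Ex_sl h0.le l hl
    have e3 : Ex ρ l.toFinset (fun S => if ¬ pass S then (1 : ℝ) else 0) ≤ 1 / 16 := by
      refine le_trans (le_of_eq ?_) hpass
      unfold Pr
      refine Ex_congr fun S _ => ?_
      by_cases hp : pass S <;> simp [hp]
    have e4 : 1 / (2 * lam) * Ex ρ l.toFinset (fun S => if ¬ pass S then (1 : ℝ) else 0) ≤
        1 / (2 * lam) * (1 / 16) := mul_le_mul_of_nonneg_left e3 (by positivity)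
    have e5 : 1 / (2 * lam) * (1 / 16) = J * ρ / 8 := by
      rw [hlam]; field_simp; norm_num
    have e6 : lam / 2 * ((ρ * J) ^ 2 + ρ * (1 - ρ) * J) ≤ J * ρ / 8 + 1 / 8 := by
      have h7 : lam / 2 * ((ρ * J) ^ 2 + ρ * J) = J * ρ / 8 + 1 / 8 := by
        rw [hlam]; field_simp; norm_num
      rw [← h7]
      apply mul_le_mul_of_nonneg_left _ (by positivity)
      nlinarith [mul_nonneg (mul_nonneg h0.le h0.le) (by linarith : (0 : ℝ) ≤ J)]
    linarith
  obtain ⟨M, hM1, hM2⟩ := exists_ge_Ex h0.le h1 l.toFinset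
    (fun M => if pass M then ((sl P M l).length : ℝ) else 0)
  have h3 := key.trans hM2
  by_cases hp : pass M
  · rw [if_pos hp] at h3
    exact ⟨M, hM1, hp, h3⟩
  · rw [if_neg hp] at h3
    linarith

lemma ind_aux2 {ι : Type*} [Fintype ι] (R : ι → Prop) {_ : Decidable (¬ ∀ i, R i)}
    {_ : ∀ i, Decidable (¬ R i)} :
    (if ¬ ∀ i, R i then (1 : ℝ) else 0) ≤ ∑ i, if ¬ R i then 1 else 0 := by
  have hnn : ∀ i ∈ (univ : Finset ι), (0 : ℝ) ≤ if ¬ R i then 1 else 0 :=
    fun z _ => by split_ifs <;> norm_num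
  by_cases h : ∀ i, R i
  · rw [if_neg (not_not.2 h)]
    exact sum_nonneg hnn
  · have h' := h
    push Not at h'
    obtain ⟨i, hi⟩ := h'
    have := single_le_sum hnn (mem_univ i)
    rw [if_pos hi] at this
    rw [if_pos h]
    exact this

section steer

variable (r : Finset α → α) (good : Finset α → Prop) (B : Finset α)

/-- the rule picks `x` and the set is good, on a family which shatters `A` -/
def Qp (x : α) (l : List α) (A : Finset α) : Prop :=
  Shat (l.toFinset ∪ B) (fun S => good (insert x S) ∧ r (insert x S) = x) A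

/-- every element of the list is popular among the sets of later elements and background elements -/
def Ly (p γ : ℝ) : List α → Prop
  | [] => True
  | x :: l => x ∉ l ∧ x ∉ B ∧
      γ ≤ Pr p (l.toFinset ∪ B) (fun S => good (insert x S) ∧ r (insert x S) = x) ∧ Ly p γ l

variable {r good B}

lemma exists_ly {p : ℝ} (h0 : 0 ≤ p) (h1 : p ≤ 1) (hg : ∀ S, good S → r S ∈ S) {m : ℕ} {c : ℝ}
    (hc : 0 < c) (J : ℕ) (N : Finset α) (hN : N.card ≤ m)
    (hl : ∀ N' ⊆ N, (N \ N').card ≤ J → c ≤ Pr p N' good) :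
    ∃ (l : List α) (B : Finset α), l.length = J ∧ l.toFinset ∪ B = N ∧
      Ly r good B p (c / m) l := by
  induction J generalizing N with
  | zero => exact ⟨[], N, rfl, by simp, trivial⟩
  | succ J ih =>
    obtain ⟨x, hx, h⟩ := exists_pop N good r hg hc (hl N subset_rfl (by simp)) hN
    obtain ⟨l, B, h2, h3, h4⟩ := ih (N.erase x) ((card_erase_le).trans hN) (by
      intro N' hN' hcard
      apply hl N' (hN'.trans (erase_subset x N))
      have : N \ N' ⊆ insert x (N.erase x \ N') := by
        intro y hy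
        rw [mem_sdiff] at hy
        by_cases hyx : y = x
        · rw [hyx]; exact mem_insert_self _ _
        · exact mem_insert_of_mem (mem_sdiff.2 ⟨mem_erase.2 ⟨hyx, hy.1⟩, hy.2⟩)
      exact (card_le_card this).trans ((card_insert_le _ _).trans (by omega)))
    have hxn : x ∉ l.toFinset ∪ B := by rw [h3]; exact notMem_erase x N
    rw [mem_union, not_or] at hxn
    refine ⟨x :: l, B, by rw [List.length_cons, h2], ?_, fun h5 => hxn.1 (List.mem_toFinset.2 h5),
      hxn.2, ?_, h4⟩
    · rw [List.toFinset_cons, insert_union, h3, insert_erase hx]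
    · rw [h3]
      refine h.trans ?_
      conv_lhs => rw [← insert_erase hx]
      rw [Pr_insert (notMem_erase x N)]
      have e1 : Pr p (N.erase x) (fun S => good S ∧ r S = x) = 0 := by
        unfold Pr
        refine (Ex_congr fun S hS => ?_).trans (Ex_const p (N.erase x) 0)
        rw [if_neg]
        rintro ⟨h5, h6⟩
        have := hg S h5
        rw [h6] at this
        exact notMem_erase x N (hS this)
      rw [e1, mul_zero, zero_add]
      have := Pr_nonneg h0 h1 (N.erase x) (fun S => good (insert x S) ∧ r (insert x S) = x)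
      nlinarith

lemma steerB (M : Finset α) {p γ : ℝ} (l : List α) (hl : Ly r good B p γ l)
    (D : Finset α) (hD : D ⊆ (sl (Qp r good B) M l).toFinset) (hne : D.Nonempty) :
    ∃ S ⊆ l.toFinset ∪ B, S ∩ (sl (Qp r good B) M l).toFinset = D ∧
      First (sl (Qp r good B) M l) D (r S) ∧ good S := by
  induction l with
  | nil =>
    exfalso
    obtain ⟨y, hy⟩ := hne
    have := hD hy
    simp [sl] at this
  | cons x l ih =>
    have hxl : x ∉ l.toFinset := fun h => hl.1 (List.mem_toFinset.1 h)
    have hxB : x ∉ l.toFinset ∪ B := by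
      rw [mem_union, not_or]; exact ⟨hxl, hl.2.1⟩
    by_cases h : x ∈ M ∧ Qp r good B x l (M ∩ l.toFinset)
    · have hs : sl (Qp r good B) M (x :: l) = x :: sl (Qp r good B) M l := by
        simp only [sl, h, and_self, if_true]
      rw [hs, List.toFinset_cons] at hD
      rw [hs]
      simp only [List.toFinset_cons]
      have hsub : (sl (Qp r good B) M l).toFinset ⊆ M ∩ l.toFinset := by
        intro y hy
        have := sl_subset M l y (List.mem_toFinset.1 hy)
        exact mem_inter.2 ⟨this.1, List.mem_toFinset.2 this.2⟩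
      by_cases hxD : x ∈ D
      · obtain ⟨S, hS, hrS, hSA⟩ := h.2 (D.erase x) (by
          intro y hy
          rcases mem_insert.1 (hD (mem_of_mem_erase hy)) with h1 | h1
          · exact absurd h1 (ne_of_mem_erase hy)
          · exact hsub h1)
        refine ⟨insert x S, ?_, ?_, ?_, hrS.1⟩
        · rw [insert_union]
          exact insert_subset_insert x hS
        · rw [← insert_inter_distrib]
          have : S ∩ (sl (Qp r good B) M l).toFinset = D.erase x := by
            ext y
            constructor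
            · intro hy
              rw [← hSA]
              exact mem_inter.2 ⟨(mem_inter.1 hy).1, hsub (mem_inter.1 hy).2⟩
            · intro hy
              have h2 := hy
              rw [← hSA] at h2
              refine mem_inter.2 ⟨(mem_inter.1 h2).1, ?_⟩
              rcases mem_insert.1 (hD (mem_of_mem_erase hy)) with h1 | h1
              · exact absurd h1 (ne_of_mem_erase hy)
              · exact h1
          rw [this, insert_erase hxD]
        · show if x ∈ D then _ else _
          rw [if_pos hxD, hrS.2]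
      · have hD' : D ⊆ (sl (Qp r good B) M l).toFinset := by
          intro y hy
          rcases mem_insert.1 (hD hy) with h1 | h1
          · rw [h1] at hy; exact absurd hy hxD
          · exact h1
        obtain ⟨S, hS, hSD, hF, hg⟩ := ih hl.2.2.2 hD'
        refine ⟨S, ?_, ?_, ?_, hg⟩
        · exact hS.trans (union_subset_union_left (subset_insert x _))
        · rw [inter_insert_of_notMem fun h => hxB (hS h), hSD]
        · show if x ∈ D then _ else _
          rw [if_neg hxD]
          exact hF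
    · have hs : sl (Qp r good B) M (x :: l) = sl (Qp r good B) M l := by
        simp only [sl, h, if_false]
      rw [hs] at hD ⊢
      obtain ⟨S, hS, hSD, hF, hg⟩ := ih hl.2.2.2 hD
      refine ⟨S, ?_, hSD, hF, hg⟩
      rw [List.toFinset_cons]
      exact hS.trans (union_subset_union_left (subset_insert x _))

/-- **Selection.** -/
theorem exists_select {ι : Type*} [Fintype ι] {p : ℝ} (h0 : 0 < p) (h1 : p ≤ 1 / 2) {m k M J : ℕ}
    (hk : 1 ≤ k) (hM : 1 ≤ M) (hιM : Fintype.card ι ≤ M) (hkm : (1 / 2 : ℝ) ^ k ≤ 1 / 2 / m)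
    (hg : ∀ S, good S → r S ∈ S) (N : Finset α) (hN : N.card ≤ m)
    (hl : ∀ N' ⊆ N, (N \ N').card ≤ J → 1 / 2 ≤ Pr p N' good)
    (Gr : ι → Finset α) (hGr : ∀ i, N ⊆ Gr i) (F : ι → Finset α → Prop)
    (hF : ∀ i, (1 / 2 : ℝ) ^ k ≤ Pr p (Gr i) (F i)) :
    ∃ t : List α, t.Nodup ∧ t.toFinset ⊆ N ∧
      (J : ℝ) * (p / ((16 * M * k : ℕ) : ℝ)) / 2 - 1 / 8 ≤ t.length ∧
      (∀ i, Shat (Gr i) (F i) t.toFinset) ∧
      ∀ D ⊆ t.toFinset, D.Nonempty → ∃ S ⊆ N, S ∩ t.toFinset = D ∧ First t D (r S) ∧ good S := by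
  classical
  obtain ⟨l, B, hlJ, hlB, hly⟩ := exists_ly h0.le (by linarith) hg (by norm_num) J N hN hl
  set ρ : ℝ := p / ((16 * M * k : ℕ) : ℝ) with hρ
  have hMk : 1 ≤ 16 * M * k := Nat.mul_pos (by omega) hk
  have hMk' : (1 : ℝ) ≤ ((16 * M * k : ℕ) : ℝ) := by exact_mod_cast hMk
  have hρ0 : 0 < ρ := by positivity
  have hρ1 : ρ ≤ 1 := by
    rw [hρ, div_le_one (by linarith)]; linarith
  have hM' : (1 : ℝ) ≤ M := by exact_mod_cast hM
  have h16 : 1 - 1 / ((16 * M : ℕ) : ℝ) ≥ 15 / 16 := by
    push_cast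
    have : 1 / (16 * (M : ℝ)) ≤ 1 / 16 := by
      apply one_div_le_one_div_of_le (by norm_num)
      linarith
    linarith
  -- the suffixes of the list
  have hLk : ∀ l' : List α, Ly r good B p (1 / 2 / m) l' → Lk (Qp r good B) ρ (15 / 16) l' := by
    intro l'
    induction l' with
    | nil => intro _; trivial
    | cons x l' ih =>
      intro h
      refine ⟨h.1, ?_, ih h.2.2.2⟩
      have e1 := shat_high h0.le h1 hk (show 1 ≤ 16 * M by omega) (l'.toFinset ∪ B) _
        (hkm.trans h.2.2.1)
      have e2 := Pr_anti hρ0.le hρ1 (subset_union_left (s₁ := l'.toFinset) (s₂ := B))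
        (Shat (l'.toFinset ∪ B) (fun S => good (insert x S) ∧ r (insert x S) = x))
        (fun A C h hC => hC.mono h)
      exact (h16.le.trans e1).trans e2
  have hlk := hLk l hly
  -- the failures
  have hlN : l.toFinset ⊆ N := by rw [← hlB]; exact subset_union_left
  have hpass : Pr ρ l.toFinset (fun S => ¬ ∀ i, Shat (Gr i) (F i) S) ≤ 1 / 16 := by
    have e1 : Pr ρ l.toFinset (fun S => ¬ ∀ i, Shat (Gr i) (F i) S) ≤
        ∑ i, Pr ρ l.toFinset (fun S => ¬ Shat (Gr i) (F i) S) := by
      unfold Pr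
      rw [← Ex_sum]
      exact Ex_mono hρ0.le hρ1 fun S _ => ind_aux2 (fun i => Shat (Gr i) (F i) S)
    have e2 : ∀ i, Pr ρ l.toFinset (fun S => ¬ Shat (Gr i) (F i) S) ≤ 1 / ((16 * M : ℕ) : ℝ) := by
      intro i
      have e3 : Pr ρ l.toFinset (fun S => ¬ Shat (Gr i) (F i) S) +
          Pr ρ l.toFinset (Shat (Gr i) (F i)) = 1 := by
        unfold Pr
        rw [← Ex_add, ← Ex_const ρ l.toFinset 1]
        refine Ex_congr fun S _ => ?_
        by_cases hs : Shat (Gr i) (F i) S <;> simp [hs, Ex_const]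
      have e4 := shat_high h0.le h1 hk (show 1 ≤ 16 * M by omega) (Gr i) _ (hF i)
      have e5 := Pr_anti hρ0.le hρ1 (hlN.trans (hGr i)) (Shat (Gr i) (F i))
        (fun A C h hC => hC.mono h)
      linarith
    calc _ ≤ _ := e1
      _ ≤ ∑ _i : ι, 1 / ((16 * M : ℕ) : ℝ) := sum_le_sum fun i _ => e2 i
      _ = Fintype.card ι * (1 / ((16 * M : ℕ) : ℝ)) := by
        rw [sum_const, card_univ, nsmul_eq_mul]
      _ ≤ M * (1 / ((16 * M : ℕ) : ℝ)) := by
        apply mul_le_mul_of_nonneg_right _ (by positivity)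
        exact_mod_cast hιM
      _ = 1 / 16 := by push_cast; field_simp
  obtain ⟨M₀, hM₀, hps, hlen⟩ := choose_set hρ0 hρ1 l hlk _ hpass
  refine ⟨sl (Qp r good B) M₀ l, sl_nodup M₀ l hlk.nodup, ?_, ?_, ?_, ?_⟩
  · intro x hx
    exact hlN (List.mem_toFinset.2 (sl_subset M₀ l x (List.mem_toFinset.1 hx)).2)
  · rw [hlJ] at hlen
    refine le_trans ?_ hlen
    have : (0 : ℝ) ≤ J * ρ := by positivity
    linarith
  · intro i
    exact (hps i).mono fun x hx => (sl_subset M₀ l x (List.mem_toFinset.1 hx)).1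
  · intro D hD hne
    obtain ⟨S, hS, h3, h4, h5⟩ := steerB M₀ l hly D hD hne
    exact ⟨S, by rw [← hlB]; exact hS, h3, h4, h5⟩

end steer

end Pool.Agent.W945.Pm
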