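import Pool.Agent.W945.Pm.Real
import Pool.Agent.H454R3.KM

/-!
# The steered Klee–Minty cube for rules with memory
-/

namespace Pool.Agent.W945.Pm

open Finset Pool.Agent.H454R3

variable {n : ℕ} {Q : Type}

/-- The data for the steering: on the states `A` the rule can be led to the state `q` by flipping
the directions `w s`, which are not in the list `t`, and then it chooses the first improving member
of the list. `St s D` is the set of improving directions which is shown to the rule in the state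
`s` if `D` is the set of the improving members of the list. -/
structure Steer (r : Q → Finset (Fin n) → Fin n) (δ : Q → Finset (Fin n) → Q) (t : List (Fin n))
    (q : Q) (A : Q → Prop) (rk : Q → ℕ) (w : Q → Fin n) (St : Q → Finset (Fin n) → Finset (Fin n)) :
    Prop where
  nodup : t.Nodup
  hq : A q
  rk_inj : ∀ s s', A s → A s' → rk s = rk s' → s = s'
  w_notMem : ∀ s, A s → s ≠ q → w s ∉ t
  w_inj : ∀ s s', A s → s ≠ q → A s' → s' ≠ q → w s = w s' → s = s'
  inter : ∀ s D, A s → D ⊆ t.toFinset → D.Nonempty → St s D ∩ t.toFinset = D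
  mem : ∀ s D, A s → s ≠ q → D ⊆ t.toFinset → D.Nonempty → w s ∈ St s D
  pick : ∀ s D, A s → s ≠ q → D ⊆ t.toFinset → D.Nonempty → r s (St s D) = w s
  next : ∀ s D, A s → D ⊆ t.toFinset → D.Nonempty → A (δ s (St s D))
  next_rk : ∀ s D, A s → s ≠ q → D ⊆ t.toFinset → D.Nonempty → rk (δ s (St s D)) < rk s
  excl : ∀ s s' D, A s → A s' → s' ≠ q → s ≠ s' → (s = q ∨ rk s < rk s') →
    D ⊆ t.toFinset → D.Nonempty → w s' ∉ St s D
  first : ∀ D, D ⊆ t.toFinset → D.Nonempty → First t D (r q (St q D))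

section
variable (r : Q → Finset (Fin n) → Fin n) (δ : Q → Finset (Fin n) → Q) (t : List (Fin n))
  (St : Q → Finset (Fin n) → Finset (Fin n)) (x₀ : Fin n → Bool)

/-- the set of improving directions shown to the rule -/
def shown (a : (Fin n → Bool) × Q) : Finset (Fin n) :=
  if Dd x₀ t a.1 = ∅ then ∅ else St a.2 (Dd x₀ t a.1)

/-- one step -/
def stp (a : (Fin n → Bool) × Q) : (Fin n → Bool) × Q :=
  if Dd x₀ t a.1 = ∅ then a else
    (flip a.1 (r a.2 (St a.2 (Dd x₀ t a.1))), δ a.2 (St a.2 (Dd x₀ t a.1)))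

/-- the run -/
def run (s₀ : Q) (k : ℕ) : (Fin n → Bool) × Q := (stp r δ t St x₀)^[k] (x₀, s₀)

end

variable {r : Q → Finset (Fin n) → Fin n} {δ : Q → Finset (Fin n) → Q} {t : List (Fin n)}
  {q : Q} {A : Q → Prop} {rk : Q → ℕ} {w : Q → Fin n} {St : Q → Finset (Fin n) → Finset (Fin n)}
  {x₀ : Fin n → Bool} {s₀ : Q}

lemma run_succ (k : ℕ) : run r δ t St x₀ s₀ (k + 1) = stp r δ t St x₀ (run r δ t St x₀ s₀ k) := by
  unfold run
  rw [Function.iterate_succ_apply']

lemma num_ne (v : Fin n → Bool) : (Dd x₀ t v).Nonempty ↔ num x₀ t v ≠ 0 := by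
  rw [nonempty_iff_ne_empty, Ne, Ne, num_eq_zero]

/-- the effect of a step -/
lemma stp_spec (H : Steer r δ t q A rk w St) (a : (Fin n → Bool) × Q) (hA : A a.2)
    (hD : (Dd x₀ t a.1).Nonempty) :
    A (stp r δ t St x₀ a).2 ∧
    ((a.2 = q ∧ num x₀ t (stp r δ t St x₀ a).1 + 1 = num x₀ t a.1) ∨
     (a.2 ≠ q ∧ num x₀ t (stp r δ t St x₀ a).1 = num x₀ t a.1 ∧
      (stp r δ t St x₀ a).1 = flip a.1 (w a.2) ∧ rk (stp r δ t St x₀ a).2 < rk a.2)) := by
  obtain ⟨v, s⟩ := a
  simp only at hA hD ⊢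
  have hD0 := hD.ne_empty
  have hsub := Dd_subset x₀ t v
  have e : stp r δ t St x₀ (v, s) = (flip v (r s (St s (Dd x₀ t v))), δ s (St s (Dd x₀ t v))) := by
    unfold stp; simp only [if_neg hD0]
  rw [e]
  refine ⟨H.next s _ hA hsub hD, ?_⟩
  by_cases hs : s = q
  · left
    refine ⟨hs, ?_⟩
    have h1 := H.first _ hsub hD
    rw [← hs] at h1
    exact (num_flip x₀ t H.nodup v h1).2
  · right
    have h1 := H.pick s _ hA hs hsub hD
    refine ⟨hs, ?_, by rw [h1], H.next_rk s _ hA hs hsub hD⟩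
    rw [h1]
    apply num_congr
    intro i hi
    apply flip_ne
    rintro rfl
    exact H.w_notMem s hA hs hi

lemma run_A (H : Steer r δ t q A rk w St) (hs₀ : A s₀) (k : ℕ) :
    A (run r δ t St x₀ s₀ k).2 := by
  induction k with
  | zero => exact hs₀
  | succ k ih =>
    rw [run_succ]
    rcases (Dd x₀ t (run r δ t St x₀ s₀ k).1).eq_empty_or_nonempty with h | h
    · unfold stp; rw [if_pos h]; exact ih
    · exact (stp_spec H _ ih h).1

lemma num_mono (H : Steer r δ t q A rk w St) (hs₀ : A s₀) (k : ℕ) :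
    num x₀ t (run r δ t St x₀ s₀ (k + 1)).1 ≤ num x₀ t (run r δ t St x₀ s₀ k).1 ∧
    num x₀ t (run r δ t St x₀ s₀ k).1 ≤ num x₀ t (run r δ t St x₀ s₀ (k + 1)).1 + 1 := by
  rw [run_succ]
  rcases (Dd x₀ t (run r δ t St x₀ s₀ k).1).eq_empty_or_nonempty with h | h
  · unfold stp; rw [if_pos h]; omega
  · rcases (stp_spec H _ (run_A H hs₀ k) h).2 with h1 | h1
    · omega
    · omega

lemma num_mono' (H : Steer r δ t q A rk w St) (hs₀ : A s₀) {i j : ℕ} (hij : i ≤ j) :
    num x₀ t (run r δ t St x₀ s₀ j).1 ≤ num x₀ t (run r δ t St x₀ s₀ i).1 := by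
  induction j, hij using Nat.le_induction with
  | base => exact le_rfl
  | succ j _ ih => exact (num_mono H hs₀ j).1.trans ih

/-- the steps during which the main part does not change -/
lemma stay (H : Steer r δ t q A rk w St) (hs₀ : A s₀) (i m : ℕ)
    (hD : (Dd x₀ t (run r δ t St x₀ s₀ i).1).Nonempty)
    (hnum : num x₀ t (run r δ t St x₀ s₀ (i + m)).1 = num x₀ t (run r δ t St x₀ s₀ i).1) :
    m = 0 ∨ ((run r δ t St x₀ s₀ i).2 ≠ q ∧
      rk (run r δ t St x₀ s₀ (i + m)).2 < rk (run r δ t St x₀ s₀ i).2 ∧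
      (run r δ t St x₀ s₀ (i + m)).1 (w (run r δ t St x₀ s₀ i).2) =
        !(run r δ t St x₀ s₀ i).1 (w (run r δ t St x₀ s₀ i).2) ∧
      ∀ s', A s' → s' ≠ q → rk (run r δ t St x₀ s₀ i).2 < rk s' →
        (run r δ t St x₀ s₀ (i + m)).1 (w s') = (run r δ t St x₀ s₀ i).1 (w s')) := by
  induction m with
  | zero => exact Or.inl rfl
  | succ m ih =>
    right
    have h1 := num_mono' (x₀ := x₀) H hs₀ (Nat.le_add_right i m)
    have h2 := (num_mono (x₀ := x₀) H hs₀ (i + m)).1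
    rw [← add_assoc] at hnum
    have hnum' : num x₀ t (run r δ t St x₀ s₀ (i + m)).1 = num x₀ t (run r δ t St x₀ s₀ i).1 := by
      omega
    have hD' : (Dd x₀ t (run r δ t St x₀ s₀ (i + m)).1).Nonempty := by
      rw [num_ne, hnum', ← num_ne]; exact hD
    have hA := run_A (x₀ := x₀) H hs₀ (i + m)
    obtain ⟨-, h3⟩ := stp_spec H _ hA hD'
    rw [← run_succ] at h3
    rcases h3 with h3 | ⟨h3, -, h4, h5⟩
    · exfalso
      omega
    rw [← add_assoc]
    rcases ih hnum' with h6 | ⟨h6, h7, h8, h9⟩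
    · subst h6
      rw [add_zero] at h3 h4 h5 hA ⊢
      refine ⟨h3, h5, ?_, ?_⟩
      · rw [h4, flip_self]
      · intro s' hs' hs'q hrk
        rw [h4]
        apply flip_ne
        intro h10
        rw [H.w_inj _ _ hs' hs'q hA h3 h10] at hrk
        exact lt_irrefl _ hrk
    · have hAi := run_A (x₀ := x₀) H hs₀ i
      refine ⟨h6, h5.trans h7, ?_, ?_⟩
      · rw [h4, flip_ne, h8]
        intro h10
        rw [H.w_inj _ _ hAi h6 hA h3 h10] at h7
        exact lt_irrefl _ h7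
      · intro s' hs' hs'q hrk
        rw [h4, flip_ne, h9 s' hs' hs'q hrk]
        intro h10
        rw [H.w_inj _ _ hs' hs'q hA h3 h10] at hrk
        omega

/-- membership in the outmap -/
lemma mem_Dd_iff (x₀ : Fin n → Bool) (l₁ : List (Fin n)) (z : Fin n) (l₂ : List (Fin n))
    (ht : (l₁ ++ z :: l₂).Nodup) (u : Fin n → Bool) :
    z ∈ Dd x₀ (l₁ ++ z :: l₂) u ↔ par x₀ (z :: l₂) u = true := by
  induction l₁ with
  | nil =>
    rw [List.nil_append] at ht ⊢
    have hz : z ∉ Dd x₀ l₂ u := fun h =>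
      (List.nodup_cons.1 ht).1 (List.mem_toFinset.1 (Dd_subset x₀ l₂ u h))
    rw [Dd]
    split_ifs with h
    · simp [h]
    · simp [h, hz]
  | cons y l₁ ih =>
    rw [List.cons_append] at ht ⊢
    have hne : z ≠ y := by
      rintro rfl
      exact (List.nodup_cons.1 ht).1 (by simp)
    rw [Dd]
    split_ifs
    · rw [mem_insert, ih (List.nodup_cons.1 ht).2]
      simp [hne]
    · exact ih (List.nodup_cons.1 ht).2

lemma mem_Dd_congr (x₀ : Fin n → Bool) (l₁ : List (Fin n)) (z : Fin n) (l₂ : List (Fin n))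
    (ht : (l₁ ++ z :: l₂).Nodup) (u u' : Fin n → Bool) (h : ∀ i ∈ l₂, u i = u' i) :
    ((z ∈ Dd x₀ (l₁ ++ z :: l₂) u ↔ z ∈ Dd x₀ (l₁ ++ z :: l₂) u') ↔ u z = u' z) := by
  rw [mem_Dd_iff x₀ l₁ z l₂ ht, mem_Dd_iff x₀ l₁ z l₂ ht, par, par, par_congr x₀ l₂ u u' h]
  cases u z <;> cases u' z <;> cases x₀ z <;> cases par x₀ l₂ u' <;> simp

end Pool.Agent.W945.Pm
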